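import Pool.Agent.KS6_6.SA.Defs
import Pool.Agent.KS6_6.UG.Defs
import Pool.Agent.KS6_6.SC.Mom
import Pool.Agent.KS6_6.SC.Compl

set_option autoImplicit false

/-!
Families of local distributions which are consistent up to small errors.
-/

namespace Pool.Agent.KS6_6.SA

open Finset Pool.Agent.KS6_6.UG Pool.Agent.KS6_6.SC

/-- `F` depends only on the labels of the vertices in `S`. -/
def DepOn {W A : Type} (S : Finset W) (F : (W → A) → ℝ) : Prop :=
  ∀ x y : W → A, (∀ u ∈ S, x u = y u) → F x = F y

/-- Approximately consistent families of local distributions, with the given pair marginals on sets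
of at most two vertices. -/
def ApxSa {W A : Type} [Fintype W] [DecidableEq W] [Fintype A] [DecidableEq A] (R : ℕ) (η : ℝ)
    (μ : W × A → W × A → ℝ) : Prop :=
  ∃ P : Finset W → (W → A) → ℝ, ∀ S : Finset W, S.card ≤ R →
    (∀ l, 0 ≤ P S l) ∧ ∑ l, P S l = 1 ∧
    (S.card ≤ 2 → ∀ u ∈ S, ∀ v ∈ S, ∀ a b,
      μ (u, a) (v, b) = ∑ l, if l u = a ∧ l v = b then P S l else 0) ∧
    ∀ S' ⊆ S, ∀ F : (W → A) → ℝ, (∀ x, |F x| ≤ 1) → DepOn S' F →
      |∑ l, P S l * F l - ∑ l, P S' l * F l| ≤ η

section

variable {W W' A B : Type} [Fintype W] [DecidableEq W] [Fintype W'] [DecidableEq W']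
  [Fintype A] [DecidableEq A] [Fintype B] [DecidableEq B]

omit [DecidableEq A] in
theorem push_sum (P : (W → A) → ℝ) (f : (W → A) → (W' → B)) (F : (W' → B) → ℝ) :
    ∑ y, (∑ x, if f x = y then P x else 0) * F y = ∑ x, P x * F (f x) := by
  simp only [Finset.sum_mul]
  rw [Finset.sum_comm]
  refine Finset.sum_congr rfl fun x _ => ?_
  rw [Finset.sum_eq_single (f x)]
  · rw [if_pos rfl]
  · intro y _ hy
    rw [if_neg (Ne.symm hy), zero_mul]
  · intro h; exact absurd (Finset.mem_univ _) h

/-- Pullback of approximately consistent families. -/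
theorem pull_apx (R : ℕ) (η : ℝ) (p : W' → W) (q : W' → A → B) (μ : W × A → W × A → ℝ)
    (hμ : ApxSa R η μ) : ApxSa R η (pull p q μ) := by
  obtain ⟨P, hP⟩ := hμ
  refine ⟨fun S y => ∑ x : W → A, if (fun w => q w (x (p w))) = y then P (S.image p) x else 0, ?_⟩
  intro S hS
  obtain ⟨h1, h2, h3, h4⟩ := hP (S.image p) (Finset.card_image_le.trans hS)
  refine ⟨?_, ?_, ?_, ?_⟩
  · intro y
    exact Finset.sum_nonneg fun x _ => by split_ifs; exacts [h1 x, le_rfl]
  · have := push_sum (P (S.image p)) (fun x w => q w (x (p w))) (fun _ => 1)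
    simp only [mul_one] at this
    rw [this, h2]
  · intro hS2 u hu v hv b b'
    have h5 := h3 (Finset.card_image_le.trans hS2)
    have h6 := push_sum (P (S.image p)) (fun x w => q w (x (p w)))
      (fun y => if y u = b ∧ y v = b' then 1 else 0)
    have e1 : ∀ y : W' → B, (if y u = b ∧ y v = b' then
        (∑ x : W → A, if (fun w => q w (x (p w))) = y then P (S.image p) x else 0) else 0) =
        (∑ x : W → A, if (fun w => q w (x (p w))) = y then P (S.image p) x else 0) *
          (if y u = b ∧ y v = b' then 1 else 0) := by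
      intro y
      split_ifs
      · rw [mul_one]
      · rw [mul_zero]
    simp only [e1]
    rw [h6]
    unfold pull
    have e2 : ∀ a a', μ (p u, a) (p v, a') =
        ∑ x : W → A, if x (p u) = a ∧ x (p v) = a' then P (S.image p) x else 0 := fun a a' =>
      h5 (p u) (Finset.mem_image_of_mem p hu) (p v) (Finset.mem_image_of_mem p hv) a a'
    simp only [e2]
    have e3 : ∀ a a', (if q u a = b ∧ q v a' = b' then
        ∑ x : W → A, (if x (p u) = a ∧ x (p v) = a' then P (S.image p) x else 0) else 0) =
        ∑ x : W → A, (if x (p u) = a ∧ x (p v) = a' then P (S.image p) x *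
          (if q u (x (p u)) = b ∧ q v (x (p v)) = b' then 1 else 0) else 0) := by
      intro a a'
      by_cases h2 : q u a = b ∧ q v a' = b'
      · rw [if_pos h2]
        refine Finset.sum_congr rfl fun x _ => ?_
        by_cases h3 : x (p u) = a ∧ x (p v) = a'
        · rw [if_pos h3, if_pos h3, h3.1, h3.2, if_pos h2, mul_one]
        · rw [if_neg h3, if_neg h3]
      · rw [if_neg h2]
        symm
        apply Finset.sum_eq_zero
        intro x _
        by_cases h3 : x (p u) = a ∧ x (p v) = a'
        · rw [if_pos h3, h3.1, h3.2, if_neg h2, mul_zero]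
        · rw [if_neg h3]
    simp only [e3]
    have e4 : ∀ a, ∑ a', ∑ x : W → A, (if x (p u) = a ∧ x (p v) = a' then P (S.image p) x *
          (if q u (x (p u)) = b ∧ q v (x (p v)) = b' then 1 else 0) else 0) =
          ∑ x : W → A, ∑ a', (if x (p u) = a ∧ x (p v) = a' then P (S.image p) x *
          (if q u (x (p u)) = b ∧ q v (x (p v)) = b' then 1 else 0) else 0) :=
      fun a => Finset.sum_comm
    simp only [e4]
    rw [Finset.sum_comm]
    refine Finset.sum_congr rfl fun x _ => ?_
    rw [Finset.sum_eq_single (x (p u))]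
    · rw [Finset.sum_eq_single (x (p v))]
      · rw [if_pos ⟨rfl, rfl⟩]
      · intro a' _ ha'
        rw [if_neg fun h => ha' h.2.symm]
      · intro h; exact absurd (Finset.mem_univ _) h
    · intro a _ ha
      apply Finset.sum_eq_zero
      intro a' _
      rw [if_neg fun h => ha h.1.symm]
    · intro h; exact absurd (Finset.mem_univ _) h
  · intro S' hS' F hF1 hF2
    have e1 := push_sum (P (S.image p)) (fun x w => q w (x (p w))) F
    have e2 := push_sum (P (S'.image p)) (fun x w => q w (x (p w))) F
    rw [e1, e2]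
    apply h4 (S'.image p) (Finset.image_subset_image hS') (fun x => F fun w => q w (x (p w)))
    · intro x; exact hF1 _
    · intro x y hxy
      apply hF2
      intro w hw
      show q w (x (p w)) = q w (y (p w))
      rw [hxy (p w) (Finset.mem_image_of_mem p hw)]

end

end Pool.Agent.KS6_6.SA
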