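import Pool.Agent.KS6_6.SA.Law

set_option autoImplicit false

/-!
The explicit cluster distributions and their approximate consistency.
-/

namespace Pool.Agent.KS6_6.SA

open Finset Pool.Agent.KS6_6.UG Pool.Agent.KS6_6.SC

section

variable {h k : ℕ} (φ : (Fin h → Bool) → (Fin k → Bool))
  (hφ : ∀ a b, φ (a + b) = φ a + φ b)
variable [Nonempty (Fin h ⊕ Fin k)]
variable (α a : ℝ) (hα0 : 0 ≤ α) (hcode : ∀ d, d ≠ 0 → |rho (pt φ 0 d)| ≤ α) (ha0 : 0 ≤ a)
  (ha : 4 * a + α < 1) (m : ℕ) (τ : ℝ)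

/-- Weights of the random data. -/
noncomputable def wt (h k m : ℕ) (τ : ℝ)
    (T : Option (Fin m → (Fin h ⊕ Fin k) × (Fin h ⊕ Fin k))) : ℝ :=
  T.elim τ (fun _ => (1 - τ) * (1 / (Fintype.card (Fin h ⊕ Fin k) : ℝ) ^ (2 * m)))

omit [Nonempty (Fin h ⊕ Fin k)] in
theorem wt_nonneg (hτ0 : 0 ≤ τ) (hτ1 : τ ≤ 1)
    (T : Option (Fin m → (Fin h ⊕ Fin k) × (Fin h ⊕ Fin k))) : 0 ≤ wt h k m τ T := by
  rcases T with _ | T
  · exact hτ0
  · have : 0 ≤ 1 - τ := by linarith
    simp only [wt, Option.elim]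
    positivity

theorem wt_sum : ∑ T, wt h k m τ T = 1 := by
  have hT1 : ∑ _T : Fin m → (Fin h ⊕ Fin k) × (Fin h ⊕ Fin k),
      (1 / (Fintype.card (Fin h ⊕ Fin k) : ℝ) ^ (2 * m)) = 1 := by
    have h1 := prT_true (h := h) (k := k) m
    unfold prT at h1
    simpa using h1
  rw [Fintype.sum_option]
  simp only [wt, Option.elim]
  rw [← Finset.mul_sum, hT1]
  ring

/-- The cluster distribution of the set `S`. -/
noncomputable def cl (S : Finset (Fin k → Bool)) (x : (Fin k → Bool) → (Fin h → Bool)) : ℝ :=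
  ∑ T : Option (Fin m → (Fin h ⊕ Fin k) × (Fin h ⊕ Fin k)),
    wt h k m τ T * law (relS φ hφ a S T) (shift φ a) x

include hcode ha0 ha in
theorem cl_props (hτ0 : 0 ≤ τ) (hτ1 : τ ≤ 1) (S : Finset (Fin k → Bool)) :
    (∀ x, 0 ≤ cl φ hφ a m τ S x) ∧ ∑ x, cl φ hφ a m τ S x = 1 ∧
      (∀ u b, ∑ x, (if x u = b then cl φ hφ a m τ S x else 0) = 1 / 2 ^ h) ∧
      ∀ u v, u ≠ v → ∀ b b', marg (cl φ hφ a m τ S) u v b b' =
        ((1 - τ) * pRel φ a m S u v) * (if b = b' + shift φ a u v then 1 / 2 ^ h else 0) +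
        (1 - (1 - τ) * pRel φ a m S u v) / (2 ^ h) ^ 2 := by
  classical
  have hcardA : (Fintype.card (Fin h → Bool) : ℝ) = 2 ^ h := by
    rw [Fintype.card_fun, Fintype.card_bool, Fintype.card_fin]; push_cast; rfl
  obtain ⟨hP0, hP1, hP2, hP3⟩ := mix_props (V := Fin k → Bool) (A := Fin h → Bool)
    (wt h k m τ) (wt_nonneg m τ hτ0 hτ1) (wt_sum m τ) (fun T => relS φ hφ a S T) (shift φ a)
    (fun T u v w h1 h2 => shift_add φ hφ α a hcode ha0 ha S T u v w h1 h2)
  refine ⟨hP0, hP1, ?_, ?_⟩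
  · intro u b
    have := hP2 u b
    rw [hcardA] at this
    exact this
  · intro u v huv b b'
    have h0 : marg (cl φ hφ a m τ S) u v b b' = _ := hP3 u v b b'
    rw [h0, hcardA]
    have h1 : ∑ T, wt h k m τ T * (if (relS φ hφ a S T) u v then 1 else 0) =
        (1 - τ) * pRel φ a m S u v := by
      rw [Fintype.sum_option]
      have h2 : ¬ (relS φ hφ a S (none : Option (Fin m → (Fin h ⊕ Fin k) × (Fin h ⊕ Fin k)))) u v := by
        rintro (h3 | ⟨T0, h3, _⟩)
        · exact huv h3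
        · cases h3
      rw [if_neg h2, mul_zero, zero_add]
      unfold pRel prT
      rw [Finset.mul_sum]
      refine Finset.sum_congr rfl fun T _ => ?_
      simp only [wt, Option.elim]
      rw [mul_assoc]
      congr
    rw [h1]

omit [Nonempty (Fin h ⊕ Fin k)] in
theorem rel_iff (S S' : Finset (Fin k → Bool)) (hSS : S' ⊆ S)
    (T : Option (Fin m → (Fin h ⊕ Fin k) × (Fin h ⊕ Fin k)))
    (hT : ∀ T0, T = some T0 → Good φ a S T0) :
    ∀ u ∈ S', ∀ v ∈ S', (Rel φ a S T u v ↔ Rel φ a S' T u v) := by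
  intro u hu v hv
  constructor
  · rintro (h1 | ⟨T0, h1, h2, h3, h4, h5⟩)
    · exact Or.inl h1
    · refine Or.inr ⟨T0, h1, hu, hv, ?_, h5⟩
      intro u' hu' v' hv'
      exact h4 u' (hSS hu') v' (hSS hv')
  · rintro (h1 | ⟨T0, h1, h2, h3, h4, h5⟩)
    · exact Or.inl h1
    · exact Or.inr ⟨T0, h1, hSS hu, hSS hv, hT T0 h1, h5⟩

omit [Nonempty (Fin h ⊕ Fin k)] in
theorem avg_le {V A : Type} [Fintype V] [DecidableEq V] [Fintype A] (P : (V → A) → ℝ)
    (hP0 : ∀ x, 0 ≤ P x) (hP1 : ∑ x, P x = 1) (F : (V → A) → ℝ) (hF : ∀ x, |F x| ≤ 1) :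
    |∑ x, P x * F x| ≤ 1 := by
  calc |∑ x, P x * F x| ≤ ∑ x, |P x * F x| := Finset.abs_sum_le_sum_abs _ _
    _ ≤ ∑ x, P x := by
        refine Finset.sum_le_sum fun x _ => ?_
        rw [abs_mul, abs_of_nonneg (hP0 x)]
        exact mul_le_of_le_one_right (hP0 x) (hF x)
    _ = 1 := hP1

open Classical in
include hα0 hcode ha0 ha in
/-- Approximate consistency of the cluster distributions. -/
theorem cl_close (hτ0 : 0 ≤ τ) (hτ1 : τ ≤ 1) (S S' : Finset (Fin k → Bool)) (hSS : S' ⊆ S)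
    (F : ((Fin k → Bool) → (Fin h → Bool)) → ℝ) (hF1 : ∀ x, |F x| ≤ 1) (hF2 : DepOn S' F) :
    |∑ x, cl φ hφ a m τ S x * F x - ∑ x, cl φ hφ a m τ S' x * F x| ≤
      2 * ((S.card : ℝ) ^ 2 * (1 - a / 2) ^ m) := by
  have hexp : ∀ S : Finset (Fin k → Bool), ∑ x, cl φ hφ a m τ S x * F x =
      ∑ T, wt h k m τ T * ∑ x, law (relS φ hφ a S T) (shift φ a) x * F x := by
    intro S
    unfold cl
    simp only [Finset.sum_mul, Finset.mul_sum]
    rw [Finset.sum_comm]
    refine Finset.sum_congr rfl fun T _ => Finset.sum_congr rfl fun x _ => ?_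
    ring
  have hsh : ∀ (S : Finset (Fin k → Bool))
      (T : Option (Fin m → (Fin h ⊕ Fin k) × (Fin h ⊕ Fin k))) u v w,
      relS φ hφ a S T u v → relS φ hφ a S T v w →
      shift φ a u v + shift φ a v w = shift φ a u w :=
    fun S T u v w h1 h2 => shift_add φ hφ α a hcode ha0 ha S T u v w h1 h2
  have hbad : ∀ T : Option (Fin m → (Fin h ⊕ Fin k) × (Fin h ⊕ Fin k)),
      |∑ x, law (relS φ hφ a S T) (shift φ a) x * F x -
        ∑ x, law (relS φ hφ a S' T) (shift φ a) x * F x| ≤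
      2 * T.elim 0 (fun T0 => if ¬ Good φ a S T0 then (1 : ℝ) else 0) := by
    intro T
    by_cases hT : ∀ T0, T = some T0 → Good φ a S T0
    · rw [law_restrict (relS φ hφ a S T) (relS φ hφ a S' T) (shift φ a) (hsh S T) (hsh S' T) S'
        (rel_iff φ a m S S' hSS T hT) F hF2, sub_self, abs_zero]
      rcases T with _ | T0
      · simp
      · simp only [Option.elim]
        split_ifs <;> norm_num
    · push Not at hT
      obtain ⟨T0, hT0, hT1⟩ := hT
      subst hT0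
      simp only [Option.elim]
      rw [if_pos hT1]
      have h1 := avg_le (law (relS φ hφ a S (some T0)) (shift φ a)) (law_nonneg _ _) (law_sum _ _)
        F hF1
      have h2 := avg_le (law (relS φ hφ a S' (some T0)) (shift φ a)) (law_nonneg _ _) (law_sum _ _)
        F hF1
      rw [abs_le] at h1 h2 ⊢
      constructor <;> linarith [h1.1, h1.2, h2.1, h2.2]
  rw [hexp S, hexp S', ← Finset.sum_sub_distrib]
  have ha1 : a ≤ 1 := by linarith
  calc |∑ T, (wt h k m τ T * ∑ x, law (relS φ hφ a S T) (shift φ a) x * F x -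
        wt h k m τ T * ∑ x, law (relS φ hφ a S' T) (shift φ a) x * F x)|
      ≤ ∑ T, |wt h k m τ T * ∑ x, law (relS φ hφ a S T) (shift φ a) x * F x -
        wt h k m τ T * ∑ x, law (relS φ hφ a S' T) (shift φ a) x * F x| :=
        Finset.abs_sum_le_sum_abs _ _
    _ ≤ ∑ T, wt h k m τ T * (2 * T.elim 0 (fun T0 => if ¬ Good φ a S T0 then (1 : ℝ) else 0)) := by
        refine Finset.sum_le_sum fun T _ => ?_
        rw [← mul_sub, abs_mul, abs_of_nonneg (wt_nonneg m τ hτ0 hτ1 T)]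
        exact mul_le_mul_of_nonneg_left (hbad T) (wt_nonneg m τ hτ0 hτ1 T)
    _ ≤ 2 * prT h k m (fun T => ¬ Good φ a S T) := by
        rw [Fintype.sum_option]
        simp only [wt, Option.elim, mul_zero, zero_add]
        unfold prT
        rw [Finset.mul_sum]
        refine Finset.sum_le_sum fun T _ => ?_
        have hN : 0 ≤ 1 / (Fintype.card (Fin h ⊕ Fin k) : ℝ) ^ (2 * m) := by positivity
        have hite : (0 : ℝ) ≤ if ¬ Good φ a S T then 1 else 0 := by split_ifs <;> norm_num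
        calc (1 - τ) * (1 / (Fintype.card (Fin h ⊕ Fin k) : ℝ) ^ (2 * m)) *
              (2 * if ¬ Good φ a S T then 1 else 0)
            = (1 - τ) * (2 * ((1 / (Fintype.card (Fin h ⊕ Fin k) : ℝ) ^ (2 * m)) *
              if ¬ Good φ a S T then 1 else 0)) := by ring
          _ ≤ 1 * (2 * ((1 / (Fintype.card (Fin h ⊕ Fin k) : ℝ) ^ (2 * m)) *
              if ¬ Good φ a S T then 1 else 0)) := by
              apply mul_le_mul_of_nonneg_right (by linarith)
              have := mul_nonneg hN hite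
              linarith
          _ = _ := by rw [one_mul]; congr
    _ ≤ 2 * ((S.card : ℝ) ^ 2 * (1 - a / 2) ^ m) :=
        mul_le_mul_of_nonneg_left (prT_bad φ hφ α a hcode ha0 ha m ha1 S) (by norm_num)

end

end Pool.Agent.KS6_6.SA
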