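import Pool.Agent.KS6_6.SA.Base

set_option autoImplicit false

/-!
Approximate Sherali–Adams solutions for the base game.
-/

namespace Pool.Agent.KS6_6.SA

open Finset Pool.Agent.KS6_6.UG Pool.Agent.KS6_6.SC

section

variable {h k : ℕ} (φ : (Fin h → Bool) → (Fin k → Bool))
  (hφ : ∀ a b, φ (a + b) = φ a + φ b)
variable [Nonempty (Fin h ⊕ Fin k)]
variable (α a : ℝ) (hα0 : 0 ≤ α) (hcode : ∀ d, d ≠ 0 → |rho (pt φ 0 d)| ≤ α) (ha0 : 0 ≤ a)
  (ha : 4 * a + α < 1) (m j : ℕ) (hj : 16 * j ≤ m) (ξ : ℝ)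
  (hξ : 2 ^ h * α ^ (4 * j) ≤ ξ) (hξ1 : ξ < 1)

include hcode hα0 ha0 ha hj hξ hξ1 in
/-- One-sided bound for the pair marginals of the cluster distributions. -/
theorem cl_marg (τ lam : ℝ) (hτ0 : 0 ≤ τ) (hτ1 : τ ≤ 1) (hl0 : 0 ≤ lam)
    (hτ : (3 / 4 : ℝ) ^ m ≤ τ * (1 - a) ^ m) (hlow : (3 / 4 : ℝ) ^ m ≤ 1 / 2) (R : ℕ)
    (hcond : 2 * (3 / 4 : ℝ) ^ m + (R : ℝ) ^ 2 * (1 - a / 2) ^ m + τ +
      (1 - a) ^ (2 * j) * (1 + 2 ^ h * α ^ j) + 2 ^ h * ξ ≤ lam / (R : ℝ) ^ 2)
    (S : Finset (Fin k → Bool)) (hS : S.card ≤ R) :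
    ∀ u ∈ S, ∀ v ∈ S, u ≠ v → ∀ b b', marg (cl φ hφ a m τ S) u v b b' ≤
      pairw φ m j u v b b' + (lam / (R : ℝ) ^ 2) / (2 ^ h) ^ 2 := by
  obtain ⟨hP0, hP1, hP2, hP3⟩ := cl_props φ hφ α a hcode ha0 ha m τ hτ0 hτ1 S
  intro u hu v hv huv b b'
  rw [hP3 u v huv b b']
  have hq : (0 : ℝ) < 2 ^ h := by positivity
  have ha1 : a ≤ 1 := by linarith
  set p : ℝ := (1 - τ) * pRel φ a m S u v with hp
  set q : ℝ := 2 ^ h with hqdef
  set z := u + v with hz
  set s : ℝ := ∑ d, kx m (2 * j) (pt φ z d) with hs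
  set rest : ℝ := (1 - a) ^ (2 * j) * (1 + q * α ^ j) with hrest
  -- lower bound for the kernel
  have hk := kap_close (pt φ 0) (hd_add φ hφ) (kx m (2 * j)) (kx_psd m (2 * j))
    (kx_zero m (2 * j) (by omega)) ξ (code_mass φ α hα0 hcode m j hj ξ hξ) hξ1
    (pt φ z (b + b'))
  rw [coset_eq φ hφ] at hk
  have hk1 := (abs_le.mp hk).1
  have hpr0 : 0 ≤ pRel φ a m S u v := prT_nonneg m _
  have hcard2 : (2 : ℝ) ≤ S.card := by
    have : 1 < S.card := Finset.one_lt_card.mpr ⟨u, hu, v, hv, huv⟩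
    exact_mod_cast this
  have hSR : (S.card : ℝ) ≤ R := by exact_mod_cast hS
  have hSpos : (0 : ℝ) < S.card := by linarith
  have hlamS : lam / (R : ℝ) ^ 2 ≤ lam / (S.card : ℝ) ^ 2 := by
    apply div_le_div_of_nonneg_left hl0 (by positivity)
    exact pow_le_pow_left₀ hSpos.le hSR 2
  have hbadR : (S.card : ℝ) ^ 2 * (1 - a / 2) ^ m ≤ (R : ℝ) ^ 2 * (1 - a / 2) ^ m := by
    apply mul_le_mul_of_nonneg_right
    · exact pow_le_pow_left₀ hSpos.le hSR 2
    · apply pow_nonneg; linarith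
  have h34 : (0 : ℝ) ≤ (3 / 4) ^ m := by positivity
  have hbad0 : 0 ≤ (S.card : ℝ) ^ 2 * (1 - a / 2) ^ m := by
    apply mul_nonneg (by positivity)
    apply pow_nonneg; linarith
  have key : s - p ≤ lam / (R : ℝ) ^ 2 - q * ξ ∧
      (b = b' + shift φ a u v → p ≤ kx m (2 * j) (pt φ z (b + b'))) := by
    by_cases hx : ∃ d, far φ z d ≤ a
    · obtain ⟨d, hd⟩ := hx
      have h1 := pRel_le φ hφ α a hcode ha0 ha m S u v huv d hd
      have h2 := pRel_ge φ hφ α a hcode ha0 ha m ha1 S u v hu hv d hd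
      have h3 := rest_bound φ hφ α a hα0 hcode ha0 ha m j hj z
        ((Finset.univ : Finset (Fin h → Bool)).erase d) (by
          intro d' hd'
          by_contra hcon
          push Not at hcon
          apply Finset.ne_of_mem_erase hd'
          exact far_unique φ hφ α a hcode ha z d' d (by linarith) (by linarith))
      have h4 : s = kx m (2 * j) (pt φ z d) +
          ∑ d' ∈ (Finset.univ : Finset (Fin h → Bool)).erase d, kx m (2 * j) (pt φ z d') :=
        (Finset.add_sum_erase _ _ (Finset.mem_univ d)).symm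
      have hsq0 : 0 ≤ rho (pt φ z d) ^ 2 := sq_nonneg _
      have hsq1 : rho (pt φ z d) ^ 2 ≤ 1 := rho_sq_le _
      have h5 := kt_le m (2 * j) (by omega) _ hsq0 hsq1 hlow
      have h6 := kt_ge m (2 * j) (by omega) _ hsq0 hsq1
      have h5' : kx m (2 * j) (pt φ z d) ≤ ((1 + rho (pt φ z d) ^ 2) / 2) ^ m +
          2 * (3 / 4) ^ m := h5
      have h6' : ((1 + rho (pt φ z d) ^ 2) / 2) ^ m - (3 / 4) ^ m ≤
          kx m (2 * j) (pt φ z d) := h6
      set F : ℝ := ((1 + rho (pt φ z d) ^ 2) / 2) ^ m with hF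
      have hF1 : F ≤ 1 := pow_le_one₀ (by linarith) (by linarith)
      have hF0 : (1 - a) ^ m ≤ F := by
        apply pow_le_pow_left₀ (by linarith)
        unfold far at hd
        have h7 : 1 - a ≤ |rho (pt φ z d)| := by linarith
        have h8 : (1 - a) ^ 2 ≤ rho (pt φ z d) ^ 2 := by
          rw [← sq_abs (rho _)]
          exact pow_le_pow_left₀ (by linarith) h7 2
        nlinarith
      have hF00 : 0 ≤ F := le_trans (pow_nonneg (by linarith) m) hF0
      constructor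
      · have h9 : (1 - τ) * (F - (S.card : ℝ) ^ 2 * (1 - a / 2) ^ m) ≤ p := by
          rw [hp]
          exact mul_le_mul_of_nonneg_left h2 (by linarith)
        have h10 : (1 - τ) * (F - (S.card : ℝ) ^ 2 * (1 - a / 2) ^ m) =
            F - τ * F - (S.card : ℝ) ^ 2 * (1 - a / 2) ^ m +
              τ * ((S.card : ℝ) ^ 2 * (1 - a / 2) ^ m) := by ring
        have h11 : τ * F ≤ τ := mul_le_of_le_one_right hτ0 hF1
        have h12 : 0 ≤ τ * ((S.card : ℝ) ^ 2 * (1 - a / 2) ^ m) := mul_nonneg hτ0 hbad0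
        linarith
      · intro hb
        have e1 : b + b' = d := by
          rw [hb, shift_eq φ hφ α a hcode ha0 ha u v d hd]
          calc b' + d + b' = d + (b' + b') := by abel
            _ = d := by rw [pi_add_self, add_zero]
        rw [e1]
        have h9 : p ≤ (1 - τ) * F := by
          rw [hp]
          exact mul_le_mul_of_nonneg_left h1 (by linarith)
        have h10 : τ * (1 - a) ^ m ≤ τ * F := mul_le_mul_of_nonneg_left hF0 hτ0
        linarith
    · have h1 := pRel_zero φ a m S u v huv hx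
      have hp0 : p = 0 := by rw [hp, h1, mul_zero]
      have h3 := rest_bound φ hφ α a hα0 hcode ha0 ha m j hj z
        (Finset.univ : Finset (Fin h → Bool)) (by
          intro d' _
          by_contra hcon
          push Not at hcon
          exact hx ⟨d', hcon.le⟩)
      constructor
      · rw [hp0]
        have h4 : s ≤ rest := h3
        linarith
      · intro _
        rw [hp0]
        exact kx_nonneg _ _ _
  obtain ⟨hk2, hk3⟩ := key
  have hind : p * (if b = b' + shift φ a u v then 1 / q else 0) ≤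
      kx m (2 * j) (pt φ z (b + b')) / q := by
    by_cases hb : b = b' + shift φ a u v
    · rw [if_pos hb, mul_one_div]
      exact div_le_div_of_nonneg_right (hk3 hb) hq.le
    · rw [if_neg hb, mul_zero]
      exact div_nonneg (kx_nonneg _ _ _) hq.le
  have hfin : (kx m (2 * j) (pt φ z (b + b')) + (1 - s) / q - ξ) / q ≤ pairw φ m j u v b b' := by
    unfold pairw
    apply div_le_div_of_nonneg_right _ hq.le
    linarith
  have hfin2 : (kx m (2 * j) (pt φ z (b + b')) + (1 - s) / q - ξ) / q =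
      kx m (2 * j) (pt φ z (b + b')) / q + (1 - p) / q ^ 2 - (s - p + q * ξ) / q ^ 2 := by
    field_simp
    ring
  have hfin3 : (s - p + q * ξ) / q ^ 2 ≤ (lam / (R : ℝ) ^ 2) / q ^ 2 := by
    apply div_le_div_of_nonneg_right _ (by positivity)
    linarith
  linarith


theorem l1_le {ι : Type} [Fintype ι] (x : ι → ℝ) (δ : ℝ) (hδ : 0 ≤ δ) (hx : ∀ i, x i ≤ δ)
    (hs : ∑ i, x i = 0) : ∑ i, |x i| ≤ 2 * (Fintype.card ι * δ) := by
  have h1 : ∀ i, |x i| = 2 * max (x i) 0 - x i := by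
    intro i
    rcases le_total (x i) 0 with h2 | h2
    · rw [max_eq_right h2, abs_of_nonpos h2]; ring
    · rw [max_eq_left h2, abs_of_nonneg h2]; ring
  have h2 : ∑ i, |x i| = 2 * ∑ i, max (x i) 0 := by
    simp only [h1]
    rw [Finset.sum_sub_distrib, hs, sub_zero, Finset.mul_sum]
  rw [h2]
  apply mul_le_mul_of_nonneg_left _ (by norm_num)
  calc ∑ i, max (x i) 0 ≤ ∑ _i : ι, δ := Finset.sum_le_sum fun i _ => max_le (hx i) hδ
    _ = _ := by rw [Finset.sum_const, Finset.card_univ, nsmul_eq_mul]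

theorem exp_marg {V A : Type} [Fintype V] [DecidableEq V] [Fintype A] [DecidableEq A]
    (P : (V → A) → ℝ) (u v : V) (G : A → A → ℝ) :
    ∑ x, P x * G (x u) (x v) = ∑ p : A × A, marg P u v p.1 p.2 * G p.1 p.2 := by
  unfold marg
  simp only [Finset.sum_mul]
  rw [Finset.sum_comm]
  refine Finset.sum_congr rfl fun x _ => ?_
  rw [Finset.sum_eq_single (x u, x v)]
  · simp
  · rintro ⟨b, b'⟩ _ hb
    have : ¬ (x u = b ∧ x v = b') := fun h => hb (by rw [h.1, h.2])
    rw [if_neg this, zero_mul]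
  · intro h; exact absurd (Finset.mem_univ _) h

end

end Pool.Agent.KS6_6.SA
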