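import Pool.Agent.KS6_6.SA.Smo
import Pool.Agent.KS6_6.UG.Relax

set_option autoImplicit false

/-!
Smoothing.
-/

namespace Pool.Agent.KS6_6.SA

open Finset Pool.Agent.KS6_6.UG Pool.Agent.KS6_6.SC

variable {W : Type} [Fintype W] [DecidableEq W] {l : ℕ}

theorem card_lab' : (Fintype.card (Fin l → Bool) : ℝ) = 2 ^ l := card_lab

/-- Pair marginals of the uniform distribution. -/
theorem marg_unif (u v : W) (a b : Fin l → Bool) :
    marg (fun _ : W → Fin l → Bool => 1 / NN W l) u v a b = nu (u, a) (v, b) := by
  have hN := NN_pos (W := W) (l := l)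
  have hq : (0 : ℝ) < 2 ^ l := by positivity
  have hsum : ∀ F : (W → Fin l → Bool) → Prop, ∀ _ : DecidablePred F,
      ∑ x, (if F x then 1 / NN W l else 0) = (∑ x, if F x then (1 : ℝ) else 0) / NN W l := by
    intro F _
    rw [Finset.sum_div]
    refine Finset.sum_congr rfl fun x _ => ?_
    by_cases h : F x <;> simp [h]
  by_cases huv : u = v
  · subst huv
    rw [marg_self]
    unfold nu
    simp only [if_true]
    by_cases hab : a = b
    · rw [if_pos hab, if_pos hab, hsum (fun x => x u = a) inferInstance]
      have h1 := sum_one_fix (V := W) (A := Fin l → Bool) u a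
      rw [card_lab] at h1
      rw [div_eq_div_iff hN.ne' hq.ne', one_mul, mul_comm]
      exact h1
    · rw [if_neg hab, if_neg hab]
  · unfold nu marg
    simp only [if_neg huv]
    rw [hsum (fun x => x u = a ∧ x v = b) inferInstance]
    have h1 := sum_two_fix (V := W) (A := Fin l → Bool) u v huv a b
    rw [card_lab] at h1
    rw [div_eq_div_iff hN.ne' (by positivity), one_mul, mul_comm]
    exact h1

theorem unif_sum : ∑ _x : W → Fin l → Bool, 1 / NN W l = 1 := by
  have hN := NN_pos (W := W) (l := l)
  rw [Finset.sum_const, nsmul_eq_mul, card_space]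
  unfold NN at hN ⊢
  field_simp

theorem smo_psd (lam : ℝ) (hl0 : 0 ≤ lam) (hl1 : lam ≤ 1)
    (μ : W × (Fin l → Bool) → W × (Fin l → Bool) → ℝ)
    (hμ : ∀ f : W × (Fin l → Bool) → ℝ, 0 ≤ ∑ x, ∑ y, f x * f y * μ x y)
    (f : W × (Fin l → Bool) → ℝ) : 0 ≤ ∑ x, ∑ y, f x * f y * smo lam μ x y := by
  have h1 := hμ f
  have h2 := marg_psd (fun _ : W → Fin l → Bool => 1 / NN W l)
    (fun _ => div_nonneg zero_le_one NN_pos.le) f (fun x => x)
  simp only [marg_unif] at h2
  have h3 : ∑ x, ∑ y, f x * f y * smo lam μ x y =
      (1 - lam) * ∑ x, ∑ y, f x * f y * μ x y +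
        lam * ∑ x : W × (Fin l → Bool), ∑ y : W × (Fin l → Bool), f x * f y * nu x y := by
    simp only [Finset.mul_sum]
    rw [← Finset.sum_add_distrib]
    refine Finset.sum_congr rfl fun x _ => ?_
    rw [← Finset.sum_add_distrib]
    refine Finset.sum_congr rfl fun y _ => ?_
    unfold smo; ring
  rw [h3]
  exact add_nonneg (mul_nonneg (by linarith) h1) (mul_nonneg hl0 h2)

/-- Smoothing keeps the relaxation with local constraints. -/
theorem smo_local (R : ℕ) (lam : ℝ) (hl0 : 0 ≤ lam) (hl1 : lam ≤ 1)
    (μ : W × (Fin l → Bool) → W × (Fin l → Bool) → ℝ) (hμ : LocalSdp R μ) :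
    LocalSdp R (smo lam μ) := by
  constructor
  · exact smo_psd lam hl0 hl1 μ hμ.psd
  · intro S hS
    obtain ⟨P, hP0, hP1, hP⟩ := hμ.loc S hS
    refine ⟨fun x => (1 - lam) * P x + lam * (1 / NN W l), ?_, ?_, ?_⟩
    · intro x
      have := NN_pos (W := W) (l := l)
      have := hP0 x
      have : 0 ≤ 1 - lam := by linarith
      positivity
    · rw [Finset.sum_add_distrib, ← Finset.mul_sum, ← Finset.mul_sum, hP1, unif_sum]
      ring
    · intro u hu v hv a b
      have h1 := marg_unif (W := W) (l := l) u v a b
      unfold marg at h1
      unfold smo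
      rw [hP u hu v hv a b, ← h1, Finset.mul_sum, Finset.mul_sum, ← Finset.sum_add_distrib]
      refine Finset.sum_congr rfl fun x _ => ?_
      by_cases h : x u = a ∧ x v = b
      · simp only [if_pos h]
      · simp only [if_neg h]; ring

open Classical in
/-- Smoothed Fourier coefficients. -/
noncomputable def cc (lam : ℝ) (P : Finset W → (W → Fin l → Bool) → ℝ)
    (α : W → Fin l → Bool) : ℝ :=
  if α = 0 then 1 else (1 - lam) * ph (P (spt α)) α

/-- Smoothing gives exactly consistent distributions. -/
theorem smo_sa (R : ℕ) (η lam : ℝ) (hl0 : 0 ≤ lam) (hl1 : lam ≤ 1)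
    (μ : W × (Fin l → Bool) → W × (Fin l → Bool) → ℝ)
    (hpsd : ∀ f : W × (Fin l → Bool) → ℝ, 0 ≤ ∑ x, ∑ y, f x * f y * μ x y)
    (hμ : ApxSa R η μ) (hη : ((2 : ℝ) ^ l) ^ R * η ≤ lam) : SaSdp R (smo lam μ) := by
  classical
  refine ⟨smo_psd lam hl0 hl1 μ hpsd, ?_⟩
  obtain ⟨P, hP⟩ := hμ
  have hN := NN_pos (W := W) (l := l)
  have hη0 : 0 ≤ η := by
    have := (hP ∅ (by simp)).2.2.2 ∅ (Finset.Subset.refl _) (fun _ => 0) (by simp)
      (fun _ _ _ => rfl)
    exact (abs_nonneg _).trans this
  have hspt0 : spt (0 : W → Fin l → Bool) = ∅ := by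
    ext w; simp [mem_spt]
  have hph0 : ∀ S : Finset W, S.card ≤ R → ph (P S) 0 = 1 := by
    intro S hS
    unfold ph
    simp only [chp_zero, mul_one]
    exact (hP S hS).2.1
  have hdepα : ∀ (α : W → Fin l → Bool) (S : Finset W), spt α ⊆ S →
      DepOn S (fun x => chp α x) := by
    intro α S hα x y hxy
    unfold chp
    refine Finset.prod_congr rfl fun w _ => ?_
    by_cases hw : α w = 0
    · rw [hw, chi_zero, chi_zero]
    · rw [hxy w (hα ((mem_spt α w).mpr hw))]
  refine ⟨fun S => qq (cc lam P) S, ?_⟩
  intro S hS
  refine ⟨?_, ?_, ?_, ?_⟩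
  · -- positivity
    intro y
    have h1 := proj_nonneg (P S) (hP S hS).1 S y
    unfold qq at h1 ⊢
    apply div_nonneg _ hN.le
    have h2 : 0 ≤ ∑ α, (if spt α ⊆ S then ph (P S) α * chp α y else 0) := by
      by_contra hcon
      push Not at hcon
      have := div_neg_of_neg_of_pos hcon hN
      linarith
    have h3 : ∀ α : W → Fin l → Bool, (if spt α ⊆ S then cc lam P α * chp α y else 0) =
        (1 - lam) * (if spt α ⊆ S then ph (P S) α * chp α y else 0) +
        lam * (if α = 0 then 1 else 0) +
        (1 - lam) * (if spt α ⊆ S then (ph (P (spt α)) α - ph (P S) α) * chp α y else 0) := by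
      intro α
      by_cases h4 : spt α ⊆ S
      · simp only [if_pos h4]
        unfold cc
        by_cases h5 : α = 0
        · subst h5
          simp only [if_true, hspt0]
          rw [hph0 ∅ (by simp), hph0 S hS, chp_zero]
          ring
        · simp only [if_neg h5]
          ring
      · have h5 : α ≠ 0 := by
          rintro rfl
          rw [hspt0] at h4
          exact h4 (Finset.empty_subset S)
        simp only [if_neg h4, if_neg h5]
        ring
    simp only [h3]
    rw [Finset.sum_add_distrib, Finset.sum_add_distrib, ← Finset.mul_sum, ← Finset.mul_sum,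
      ← Finset.mul_sum, Finset.sum_ite_eq' Finset.univ (0 : W → Fin l → Bool),
      if_pos (Finset.mem_univ _)]
    have h4 : |∑ α : W → Fin l → Bool,
        (if spt α ⊆ S then (ph (P (spt α)) α - ph (P S) α) * chp α y else 0)| ≤ lam := by
      calc |∑ α : W → Fin l → Bool,
          (if spt α ⊆ S then (ph (P (spt α)) α - ph (P S) α) * chp α y else 0)|
          ≤ ∑ α : W → Fin l → Bool,
            |(if spt α ⊆ S then (ph (P (spt α)) α - ph (P S) α) * chp α y else 0)| :=
            Finset.abs_sum_le_sum_abs _ _
        _ ≤ ∑ α : W → Fin l → Bool, η * (if spt α ⊆ S then (1 : ℝ) else 0) := by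
            refine Finset.sum_le_sum fun α _ => ?_
            by_cases h5 : spt α ⊆ S
            · rw [if_pos h5, if_pos h5, mul_one, abs_mul]
              have h6 : |ph (P (spt α)) α - ph (P S) α| ≤ η := by
                rw [abs_sub_comm]
                exact (hP S hS).2.2.2 (spt α) h5 (fun x => chp α x) (fun x => chp_abs α x)
                  (hdepα α (spt α) (Finset.Subset.refl _))
              calc |ph (P (spt α)) α - ph (P S) α| * |chp α y| ≤ η * 1 :=
                    mul_le_mul h6 (chp_abs α y) (abs_nonneg _) hη0
                _ = η := mul_one η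
            · rw [if_neg h5, if_neg h5]; simp
        _ = ((2 : ℝ) ^ l) ^ S.card * η := by rw [← Finset.mul_sum, card_on, mul_comm]
        _ ≤ ((2 : ℝ) ^ l) ^ R * η := by
            apply mul_le_mul_of_nonneg_right _ hη0
            exact pow_le_pow_right₀ (one_le_pow₀ (by norm_num)) hS
        _ ≤ lam := hη
    have h5 := (abs_le.mp h4).1
    have h6 : (1 - lam) * (-lam) ≤ (1 - lam) * ∑ α : W → Fin l → Bool,
        (if spt α ⊆ S then (ph (P (spt α)) α - ph (P S) α) * chp α y else 0) :=
      mul_le_mul_of_nonneg_left h5 (by linarith)
    have h7 : 0 ≤ (1 - lam) * ∑ α, (if spt α ⊆ S then ph (P S) α * chp α y else 0) :=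
      mul_nonneg (by linarith) h2
    nlinarith
  · -- total mass
    have h1 := qq_sum (cc lam P) S (fun _ => 1)
    simp only [mul_one] at h1
    rw [h1, Finset.sum_eq_single 0]
    · rw [hspt0, if_pos (Finset.empty_subset S)]
      have h2 : fh (fun _ : W → Fin l → Bool => (1 : ℝ)) 0 = 1 := by
        unfold fh
        simp only [chp_zero, mul_one, Finset.sum_const, nsmul_eq_mul]
        rw [card_space]
        unfold NN at hN ⊢
        exact div_self hN.ne'
      rw [h2, mul_one]
      unfold cc
      rw [if_pos rfl]
    · intro α _ hα
      have h2 : ¬ spt α ⊆ ∅ := by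
        intro h3
        apply hα
        funext w
        by_contra hne
        have := h3 ((mem_spt α w).mpr hne)
        exact absurd this (Finset.notMem_empty w)
      rw [fh_dep ∅ (fun _ => 1) (fun _ _ _ => rfl) α h2]
      simp
    · intro h2; exact absurd (Finset.mem_univ _) h2
  · -- pair marginals
    intro u hu v hv a b
    set F : (W → Fin l → Bool) → ℝ := fun x => if x u = a ∧ x v = b then 1 else 0 with hF
    have hdep : DepOn ({u, v} : Finset W) F := by
      intro x y hxy
      have h1 := hxy u (by simp)
      have h2 := hxy v (by simp)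
      simp only [hF, h1, h2]
    have hsub : ({u, v} : Finset W) ⊆ S := by
      intro w hw
      rcases Finset.mem_insert.mp hw with h | h
      · rw [h]; exact hu
      · rw [Finset.mem_singleton.mp h]; exact hv
    have hc2 : ({u, v} : Finset W).card ≤ 2 := Finset.card_le_two
    have hcR : ({u, v} : Finset W).card ≤ R := (Finset.card_le_card hsub).trans hS
    have e1 : ∑ x, (if x u = a ∧ x v = b then qq (cc lam P) S x else 0) =
        ∑ x, qq (cc lam P) {u, v} x * F x := by
      rw [← qq_consistent (cc lam P) S {u, v} hsub F hdep]
      refine Finset.sum_congr rfl fun x _ => ?_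
      simp only [hF]
      split_ifs
      · rw [mul_one]
      · rw [mul_zero]
    rw [e1, qq_sum]
    obtain ⟨p1, p2, p3, p4⟩ := hP {u, v} hcR
    have hexact : ∀ α : W → Fin l → Bool, spt α ⊆ {u, v} →
        ph (P (spt α)) α = ph (P {u, v}) α := by
      intro α hα
      -- both are given by pair marginals
      rcases Finset.eq_empty_or_nonempty (spt α) with hemp | hne
      · have hα0 : α = 0 := by
          funext w
          by_contra hne
          have := (mem_spt α w).mpr hne
          rw [hemp] at this
          exact absurd this (Finset.notMem_empty w)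
        rw [hα0, hspt0, hph0 ∅ (by simp), hph0 _ hcR]
      · -- choose `s, t` with `spt α = {s, t}`
        have hst : ∃ s t, spt α = {s, t} := by
          obtain ⟨s, hs⟩ := hne
          by_cases h1 : spt α = {s}
          · exact ⟨s, s, by rw [h1]; simp⟩
          · obtain ⟨t, ht⟩ : ∃ t ∈ spt α, t ≠ s := by
              by_contra hcon
              push Not at hcon
              apply h1
              ext w
              rw [Finset.mem_singleton]
              exact ⟨fun hw => hcon w hw, fun hw => hw ▸ hs⟩
            refine ⟨s, t, ?_⟩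
            apply Finset.eq_of_superset_of_card_ge
            · intro w hw
              rcases Finset.mem_insert.mp hw with h | h
              · rw [h]; exact hs
              · rw [Finset.mem_singleton.mp h]; exact ht.1
            · rw [Finset.card_pair ht.2.symm]
              exact (Finset.card_le_card hα).trans hc2
        obtain ⟨s, t, hst⟩ := hst
        have hs : s ∈ spt α := by rw [hst]; simp
        have ht : t ∈ spt α := by rw [hst]; simp
        have hcs : (spt α).card ≤ 2 := (Finset.card_le_card hα).trans hc2
        have hcsR : (spt α).card ≤ R := (Finset.card_le_card hα).trans hcR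
        have key : ∀ P' : (W → Fin l → Bool) → ℝ, ph P' α =
            ∑ a', ∑ b', marg P' s t a' b' * chp α (Function.update (fun _ => a') t b') := by
          intro P'
          unfold ph marg
          simp only [Finset.sum_mul]
          have e2 : ∀ a' : Fin l → Bool, ∑ b' : Fin l → Bool, ∑ x : W → Fin l → Bool,
              (if x s = a' ∧ x t = b' then P' x else 0) *
                chp α (Function.update (fun _ => a') t b') =
              ∑ x : W → Fin l → Bool, ∑ b' : Fin l → Bool,
              (if x s = a' ∧ x t = b' then P' x else 0) *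
                chp α (Function.update (fun _ => a') t b') := fun a' => Finset.sum_comm
          simp only [e2]
          rw [Finset.sum_comm]
          refine Finset.sum_congr rfl fun x _ => ?_
          rw [Finset.sum_eq_single (x s)]
          · rw [Finset.sum_eq_single (x t)]
            · rw [if_pos ⟨rfl, rfl⟩]
              congr 1
              apply hdepα α (spt α) (Finset.Subset.refl _)
              intro w hw
              rw [hst] at hw
              by_cases hwt : w = t
              · rw [hwt, Function.update_self]
              · rw [Function.update_of_ne hwt]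
                rcases Finset.mem_insert.mp hw with h | h
                · rw [h]
                · exact absurd (Finset.mem_singleton.mp h) hwt
            · intro b' _ hb'
              rw [if_neg fun h => hb' h.2.symm, zero_mul]
            · intro h; exact absurd (Finset.mem_univ _) h
          · intro a' _ ha'
            apply Finset.sum_eq_zero
            intro b' _
            rw [if_neg fun h => ha' h.1.symm, zero_mul]
          · intro h; exact absurd (Finset.mem_univ _) h
        rw [key, key]
        refine Finset.sum_congr rfl fun a' _ => Finset.sum_congr rfl fun b' _ => ?_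
        have g1 := (hP (spt α) hcsR).2.2.1 hcs s hs t ht a' b'
        have g2 := p3 hc2 s (hα hs) t (hα ht) a' b'
        unfold marg
        rw [← g1, ← g2]
    have e3 : ∀ α : W → Fin l → Bool, (if spt α ⊆ {u, v} then cc lam P α * fh F α else 0) =
        (1 - lam) * (if spt α ⊆ {u, v} then ph (P {u, v}) α * fh F α else 0) +
          lam * (if α = 0 then fh F α else 0) := by
      intro α
      by_cases h4 : spt α ⊆ {u, v}
      · simp only [if_pos h4]
        rw [← hexact α h4]
        unfold cc
        by_cases h5 : α = 0
        · subst h5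
          simp only [if_true, hspt0]
          rw [hph0 ∅ (by simp)]
          ring
        · simp only [if_neg h5]
          ring
      · have h5 : α ≠ 0 := by
          rintro rfl
          rw [hspt0] at h4
          exact h4 (Finset.empty_subset _)
        simp only [if_neg h4, if_neg h5]
        ring
    simp only [e3]
    rw [Finset.sum_add_distrib, ← Finset.mul_sum, ← Finset.mul_sum, ← ph_sum (P {u, v}) {u, v} F
      hdep, Finset.sum_ite_eq' Finset.univ (0 : W → Fin l → Bool), if_pos (Finset.mem_univ _)]
    have e4 : ∑ x, P {u, v} x * F x = μ (u, a) (v, b) := by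
      rw [p3 hc2 u (by simp) v (by simp) a b]
      refine Finset.sum_congr rfl fun x _ => ?_
      simp only [hF]
      split_ifs
      · rw [mul_one]
      · rw [mul_zero]
    have e5 : fh F 0 = nu (u, a) (v, b) := by
      rw [← marg_unif u v a b]
      unfold fh marg
      rw [Finset.sum_div]
      refine Finset.sum_congr rfl fun x _ => ?_
      simp only [hF, chp_zero, mul_one]
      split_ifs
      · rfl
      · rw [zero_div]
    rw [e4, e5]
    rfl
  · -- consistency
    intro S' hS' z
    set F : (W → Fin l → Bool) → ℝ := fun x => if ∀ u ∈ S', x u = z u then 1 else 0 with hF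
    have hdep : DepOn S' F := by
      intro x y hxy
      simp only [hF]
      have : (∀ u ∈ S', x u = z u) ↔ ∀ u ∈ S', y u = z u := by
        constructor
        · intro h u hu
          rw [← hxy u hu]; exact h u hu
        · intro h u hu
          rw [hxy u hu]; exact h u hu
      by_cases h : ∀ u ∈ S', y u = z u
      · rw [if_pos h, if_pos (this.mpr h)]
      · rw [if_neg h, if_neg fun h' => h (this.mp h')]
    have e1 := qq_consistent (cc lam P) S S' hS' F hdep
    have e2 : ∀ T : Finset W, ∑ x, (if ∀ u ∈ S', x u = z u then qq (cc lam P) T x else 0) =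
        ∑ x, qq (cc lam P) T x * F x := by
      intro T
      refine Finset.sum_congr rfl fun x _ => ?_
      simp only [hF]
      by_cases h : ∀ u ∈ S', x u = z u
      · rw [if_pos h, if_pos h, mul_one]
      · rw [if_neg h, if_neg h, mul_zero]
    exact ((e2 S).trans e1).trans (e2 S').symm

end Pool.Agent.KS6_6.SA
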