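import Pool.Agent.KS6_6.SA.Base2
import Pool.Agent.KS6_6.SA.Unif

set_option autoImplicit false

/-!
Approximate Sherali–Adams solutions for the base game, conclusion.
-/

namespace Pool.Agent.KS6_6.SA

open Finset Pool.Agent.KS6_6.UG Pool.Agent.KS6_6.SC

theorem two_points {V : Type} [DecidableEq V] (S : Finset V) (hS : S.card ≤ 2)
    (hne : S.Nonempty) : ∃ u ∈ S, ∃ v ∈ S, ∀ w ∈ S, w = u ∨ w = v := by
  have h1 : 1 ≤ S.card := hne.card_pos
  rcases Nat.lt_or_ge S.card 2 with h2 | h2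
  · have h3 : S.card = 1 := by omega
    obtain ⟨u, hu⟩ := Finset.card_eq_one.mp h3
    subst hu
    exact ⟨u, by simp, u, by simp, by simp⟩
  · have h3 : S.card = 2 := by omega
    obtain ⟨u, v, huv, hu⟩ := Finset.card_eq_two.mp h3
    subst hu
    exact ⟨u, by simp, v, by simp, by simp⟩

/-- Approximate consistency from the pair marginals and from the consistency of large sets. -/
theorem apx_of {V A : Type} [Fintype V] [DecidableEq V] [Fintype A] [DecidableEq A]
    [Nonempty A] (R : ℕ) (η : ℝ) (hη : 0 ≤ η) (μ : V × A → V × A → ℝ)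
    (P Q : Finset V → (V → A) → ℝ)
    (hP0 : ∀ S, S.card ≤ R → ∀ x, 0 ≤ P S x) (hP1 : ∀ S, S.card ≤ R → ∑ x, P S x = 1)
    (hP2 : ∀ S, S.card ≤ R → ∀ u ∈ S, ∀ v ∈ S, ∀ b b', μ (u, b) (v, b') = marg (P S) u v b b')
    (hQ0 : ∀ S, S.card ≤ R → ∀ x, 0 ≤ Q S x) (hQ1 : ∀ S, S.card ≤ R → ∑ x, Q S x = 1)
    (hQ2 : ∀ S, S.card ≤ R → ∀ u ∈ S, ∀ v ∈ S,
      ∑ p : A × A, |marg (Q S) u v p.1 p.2 - μ (u, p.1) (v, p.2)| ≤ η)
    (hQ3 : ∀ S, S.card ≤ R → ∀ S' ⊆ S, ∀ F : (V → A) → ℝ, (∀ x, |F x| ≤ 1) → DepOn S' F →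
      |∑ x, Q S x * F x - ∑ x, Q S' x * F x| ≤ η) : ApxSa R η μ := by
  classical
  let K : Finset V → (V → A) → ℝ := fun S => if S.card ≤ 2 then P S else Q S
  have hK0 : ∀ S, S.card ≤ R → ∀ x, 0 ≤ K S x := by
    intro S hS x
    by_cases h2 : S.card ≤ 2
    · simp only [K, if_pos h2]; exact hP0 S hS x
    · simp only [K, if_neg h2]; exact hQ0 S hS x
  have hK1 : ∀ S, S.card ≤ R → ∑ x, K S x = 1 := by
    intro S hS
    by_cases h2 : S.card ≤ 2
    · simp only [K, if_pos h2]; exact hP1 S hS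
    · simp only [K, if_neg h2]; exact hQ1 S hS
  have hK2 : ∀ S, S.card ≤ R → ∀ u ∈ S, ∀ v ∈ S,
      ∑ p : A × A, |marg (K S) u v p.1 p.2 - μ (u, p.1) (v, p.2)| ≤ η := by
    intro S hS u hu v hv
    by_cases h2 : S.card ≤ 2
    · simp only [K, if_pos h2]
      have : ∑ p : A × A, |marg (P S) u v p.1 p.2 - μ (u, p.1) (v, p.2)| = 0 := by
        apply Finset.sum_eq_zero
        intro p _
        rw [hP2 S hS u hu v hv, sub_self, abs_zero]
      rw [this]; exact hη
    · simp only [K, if_neg h2]; exact hQ2 S hS u hu v hv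
  refine ⟨K, ?_⟩
  intro S hS
  refine ⟨hK0 S hS, hK1 S hS, ?_, ?_⟩
  · intro h2 u hu v hv b b'
    have : K S = P S := by simp only [K, if_pos h2]
    rw [this]
    exact hP2 S hS u hu v hv b b'
  · intro S' hSS F hF1 hF2
    have hS' : S'.card ≤ R := (Finset.card_le_card hSS).trans hS
    by_cases h2 : S'.card ≤ 2
    · rcases S'.eq_empty_or_nonempty with he | hne
      · subst he
        obtain ⟨b0⟩ := (inferInstance : Nonempty A)
        have hc : ∀ x, F x = F (fun _ => b0) := fun x => hF2 _ _ (by simp)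
        have e : ∀ S : Finset V, ∑ x, K S x * F x = (∑ x, K S x) * F (fun _ => b0) := by
          intro S
          rw [Finset.sum_mul]
          exact Finset.sum_congr rfl fun x _ => by rw [hc x]
        rw [e, e, hK1 S hS, hK1 ∅ hS', sub_self, abs_zero]
        exact hη
      · obtain ⟨u, hu, v, hv, huv⟩ := two_points S' h2 hne
        obtain ⟨b0⟩ := (inferInstance : Nonempty A)
        let G : A → A → ℝ := fun b b' =>
          F (Function.update (Function.update (fun _ => b0) u b) v b')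
        have hG : ∀ x, F x = G (x u) (x v) := by
          intro x
          apply hF2
          intro w hw
          rcases huv w hw with h3 | h3
          · subst h3
            by_cases h4 : w = v
            · subst h4; rw [Function.update_self]
            · rw [Function.update_of_ne h4, Function.update_self]
          · subst h3; rw [Function.update_self]
        have hG1 : ∀ b b', |G b b'| ≤ 1 := fun b b' => hF1 _
        have e : ∀ S : Finset V, ∑ x, K S x * F x =
            ∑ p : A × A, marg (K S) u v p.1 p.2 * G p.1 p.2 := by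
          intro S
          rw [← exp_marg]
          exact Finset.sum_congr rfl fun x _ => by rw [hG x]
        have e' : K S' = P S' := by simp only [K, if_pos h2]
        rw [e S, e S', e', ← Finset.sum_sub_distrib]
        refine (Finset.abs_sum_le_sum_abs _ _).trans ?_
        refine le_trans (Finset.sum_le_sum fun p _ => ?_) (hK2 S hS u (hSS hu) v (hSS hv))
        rw [← hP2 S' hS' u hu v hv, ← sub_mul, abs_mul]
        exact mul_le_of_le_one_right (abs_nonneg _) (hG1 _ _)
    · have h3 : ¬ S.card ≤ 2 := fun h => h2 ((Finset.card_le_card hSS).trans h)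
      have e1 : K S = Q S := by simp only [K, if_neg h3]
      have e2 : K S' = Q S' := by simp only [K, if_neg h2]
      rw [e1, e2]
      exact hQ3 S hS S' hSS F hF1 hF2

section

variable {h k : ℕ} (φ : (Fin h → Bool) → (Fin k → Bool))
  (hφ : ∀ a b, φ (a + b) = φ a + φ b)
variable [Nonempty (Fin h ⊕ Fin k)]
variable (α a : ℝ) (hα0 : 0 ≤ α) (hcode : ∀ d, d ≠ 0 → |rho (pt φ 0 d)| ≤ α) (ha0 : 0 ≤ a)
  (ha : 4 * a + α < 1) (m j : ℕ) (hj : 16 * j ≤ m) (ξ : ℝ)
  (hξ : 2 ^ h * α ^ (4 * j) ≤ ξ) (hξ1 : ξ < 1)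

include hφ hα0 hcode hj hξ hξ1 in
theorem mu0_diag (lam : ℝ) (u : Fin k → Bool) (b b' : Fin h → Bool) :
    mu0 φ m j lam (u, b) (u, b') = if b = b' then 1 / 2 ^ h else 0 := by
  unfold mu0 pairw
  simp only [if_true]
  have h1 := kap_code (pt φ 0) (hd_add φ hφ) (kx m (2 * j))
    (kx_zero m (2 * j) (by omega)) ξ (code_mass φ α hα0 hcode m j hj ξ hξ) hξ1 (b + b')
  rw [pi_add_self, h1]
  by_cases hb : b = b'
  · subst hb
    rw [if_pos rfl, if_pos (pi_add_self b)]
    ring
  · have hb2 : b + b' ≠ 0 := by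
      intro h5
      apply hb
      calc b = (b + b') + b' := by
            calc b = b + (b' + b') := by rw [pi_add_self, add_zero]
              _ = (b + b') + b' := by abel
        _ = b' := by rw [h5, zero_add]
    rw [if_neg hb, if_neg hb2]
    ring

include hφ hα0 hcode ha0 ha hj hξ hξ1 in
/-- The matrix of the base game has approximately consistent local distributions. -/
theorem mu0_apx (τ lam : ℝ) (hτ0 : 0 ≤ τ) (hτ1 : τ ≤ 1) (hl0 : 0 ≤ lam) (hl1 : lam ≤ 1)
    (hτ : (3 / 4 : ℝ) ^ m ≤ τ * (1 - a) ^ m) (hlow : (3 / 4 : ℝ) ^ m ≤ 1 / 2) (R : ℕ)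
    (hcond : 2 * (3 / 4 : ℝ) ^ m + (R : ℝ) ^ 2 * (1 - a / 2) ^ m + τ +
      (1 - a) ^ (2 * j) * (1 + 2 ^ h * α ^ j) + 2 ^ h * ξ ≤ lam / (R : ℝ) ^ 2) :
    ApxSa R (2 * (lam / (R : ℝ) ^ 2)) (mu0 φ m j lam) := by
  classical
  have hq : (0 : ℝ) < 2 ^ h := by positivity
  have hη0 : 0 ≤ lam / (R : ℝ) ^ 2 := by positivity
  have hdiag := mu0_diag φ hφ α hα0 hcode m j hj ξ hξ hξ1 lam
  have hex : ∀ S : Finset (Fin k → Bool), ∃ P' : ((Fin k → Bool) → (Fin h → Bool)) → ℝ,
      S.card ≤ R → (∀ x, 0 ≤ P' x) ∧ ∑ x, P' x = 1 ∧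
      ∀ u ∈ S, ∀ v ∈ S, ∀ b b', mu0 φ m j lam (u, b) (v, b') = marg P' u v b b' := by
    intro S
    by_cases hS : S.card ≤ R
    · obtain ⟨P, hP0, hP1, hP2, hP3⟩ := local_dist φ hφ α a hα0 hcode ha0 ha m j hj ξ hξ hξ1
        τ lam hτ0 hτ1 hl0 hl1 hτ hlow R hcond S hS
      refine ⟨P, fun _ => ⟨hP0, hP1, ?_⟩⟩
      intro u hu v hv b b'
      by_cases huv : u = v
      · subst huv
        rw [marg_self, hP3 u hu b, hdiag]
      · rw [hP2 u hu v hv huv b b']
        unfold mu0
        simp only [if_neg huv]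
        ring
    · exact ⟨fun _ => 0, fun h => absurd h hS⟩
  choose P hP using hex
  let Q : Finset (Fin k → Bool) → ((Fin k → Bool) → (Fin h → Bool)) → ℝ := fun S x =>
    (1 - lam) * cl φ hφ a m τ S x + lam * (1 / NN (Fin k → Bool) h)
  have hNN : 0 ≤ 1 / NN (Fin k → Bool) h := div_nonneg zero_le_one NN_pos.le
  have hcl := cl_props φ hφ α a hcode ha0 ha m τ hτ0 hτ1
  have hQF : ∀ (S : Finset (Fin k → Bool)) (F : ((Fin k → Bool) → (Fin h → Bool)) → ℝ),
      ∑ x, Q S x * F x = (1 - lam) * ∑ x, cl φ hφ a m τ S x * F x +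
        lam * ∑ x : (Fin k → Bool) → (Fin h → Bool), (1 / NN (Fin k → Bool) h) * F x := by
    intro S F
    rw [Finset.mul_sum, Finset.mul_sum, ← Finset.sum_add_distrib]
    refine Finset.sum_congr rfl fun x _ => ?_
    simp only [Q]; ring
  have hQm : ∀ (S : Finset (Fin k → Bool)) u v b b', marg (Q S) u v b b' =
      (1 - lam) * marg (cl φ hφ a m τ S) u v b b' + lam * nu (u, b) (v, b') := by
    intro S u v b b'
    rw [← marg_unif]
    unfold marg
    rw [Finset.mul_sum, Finset.mul_sum, ← Finset.sum_add_distrib]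
    refine Finset.sum_congr rfl fun x _ => ?_
    by_cases hx : x u = b ∧ x v = b'
    · simp only [if_pos hx, Q]
    · simp only [if_neg hx]; ring
  apply apx_of R _ (by positivity) _ P Q
  · intro S hS; exact (hP S hS).1
  · intro S hS; exact (hP S hS).2.1
  · intro S hS; exact (hP S hS).2.2
  · intro S hS x
    have h1 := (hcl S).1 x
    exact add_nonneg (mul_nonneg (by linarith) h1) (mul_nonneg hl0 hNN)
  · intro S hS
    have h1 := hQF S (fun _ => 1)
    simp only [mul_one] at h1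
    rw [h1, (hcl S).2.1, unif_sum]
    ring
  · intro S hS u hu v hv
    by_cases huv : u = v
    · subst huv
      have : ∑ p : (Fin h → Bool) × (Fin h → Bool),
          |marg (Q S) u u p.1 p.2 - mu0 φ m j lam (u, p.1) (u, p.2)| = 0 := by
        apply Finset.sum_eq_zero
        intro p _
        rw [hQm, hdiag, marg_self, (hcl S).2.2.1 u p.1]
        unfold nu
        simp only [if_true]
        have : (1 - lam) * (if p.1 = p.2 then 1 / 2 ^ h else 0) +
            lam * (if p.1 = p.2 then 1 / 2 ^ h else 0) -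
            (if p.1 = p.2 then (1 : ℝ) / 2 ^ h else 0) = 0 := by ring
        rw [this, abs_zero]
      rw [this]; positivity
    · have h1 := cl_marg φ hφ α a hα0 hcode ha0 ha m j hj ξ hξ hξ1 τ lam hτ0 hτ1 hl0 hτ hlow R
        hcond S hS u hu v hv huv
      have e1 : ∀ p : (Fin h → Bool) × (Fin h → Bool),
          |marg (Q S) u v p.1 p.2 - mu0 φ m j lam (u, p.1) (v, p.2)| =
          (1 - lam) * |marg (cl φ hφ a m τ S) u v p.1 p.2 - pairw φ m j u v p.1 p.2| := by
        intro p
        rw [hQm]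
        unfold nu mu0
        simp only [if_neg huv]
        have h2 : 0 ≤ 1 - lam := by linarith
        rw [← abs_of_nonneg h2, ← abs_mul, abs_of_nonneg h2]
        congr 1
        ring
      simp only [e1]
      rw [← Finset.mul_sum]
      have h3 : ∑ p : (Fin h → Bool) × (Fin h → Bool),
          (marg (cl φ hφ a m τ S) u v p.1 p.2 - pairw φ m j u v p.1 p.2) = 0 := by
        rw [Fintype.sum_prod_type]
        apply Finset.sum_eq_zero
        intro b _
        rw [Finset.sum_sub_distrib]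
        show ∑ b', marg (cl φ hφ a m τ S) u v b b' - ∑ b', pairw φ m j u v b b' = 0
        rw [sum_marg, (hcl S).2.2.1 u b, pairw_sum φ hφ m j, sub_self]
      have h4 := l1_le (fun p : (Fin h → Bool) × (Fin h → Bool) =>
        marg (cl φ hφ a m τ S) u v p.1 p.2 - pairw φ m j u v p.1 p.2)
        ((lam / (R : ℝ) ^ 2) / (2 ^ h) ^ 2) (by positivity)
        (fun p => by have := h1 p.1 p.2; linarith) h3
      have hcard : (Fintype.card ((Fin h → Bool) × (Fin h → Bool)) : ℝ) = (2 ^ h) ^ 2 := by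
        rw [Fintype.card_prod, Fintype.card_fun, Fintype.card_bool, Fintype.card_fin]
        push_cast; ring
      rw [hcard, mul_div_cancel₀ _ (by positivity)] at h4
      have h5 : 0 ≤ ∑ p : (Fin h → Bool) × (Fin h → Bool),
          |marg (cl φ hφ a m τ S) u v p.1 p.2 - pairw φ m j u v p.1 p.2| :=
        Finset.sum_nonneg fun _ _ => abs_nonneg _
      have h6 : (1 - lam) * ∑ p : (Fin h → Bool) × (Fin h → Bool),
          |marg (cl φ hφ a m τ S) u v p.1 p.2 - pairw φ m j u v p.1 p.2| ≤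
          1 * ∑ p : (Fin h → Bool) × (Fin h → Bool),
          |marg (cl φ hφ a m τ S) u v p.1 p.2 - pairw φ m j u v p.1 p.2| :=
        mul_le_mul_of_nonneg_right (by linarith) h5
      linarith
  · intro S hS S' hSS F hF1 hF2
    rw [hQF, hQF, add_sub_add_right_eq_sub, ← mul_sub, abs_mul]
    have h1 := cl_close φ hφ α a hα0 hcode ha0 ha m τ hτ0 hτ1 S S' hSS F hF1 hF2
    have h2 : |1 - lam| ≤ 1 := by rw [abs_le]; constructor <;> linarith
    have h3 : |1 - lam| * |∑ x, cl φ hφ a m τ S x * F x - ∑ x, cl φ hφ a m τ S' x * F x| ≤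
        1 * |∑ x, cl φ hφ a m τ S x * F x - ∑ x, cl φ hφ a m τ S' x * F x| :=
      mul_le_mul_of_nonneg_right h2 (abs_nonneg _)
    have hSR : (S.card : ℝ) ≤ R := by exact_mod_cast hS
    have ha2 : (0 : ℝ) ≤ (1 - a / 2) ^ m := by apply pow_nonneg; linarith
    have h4 : (S.card : ℝ) ^ 2 * (1 - a / 2) ^ m ≤ (R : ℝ) ^ 2 * (1 - a / 2) ^ m := by
      apply mul_le_mul_of_nonneg_right _ ha2
      exact pow_le_pow_left₀ (by positivity) hSR 2
    have h5 : (0 : ℝ) ≤ (3 / 4 : ℝ) ^ m := by positivity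
    have h6 : 0 ≤ (1 - a) ^ (2 * j) * (1 + 2 ^ h * α ^ j) := by
      apply mul_nonneg (pow_nonneg (by linarith) _)
      positivity
    have h7 : 0 ≤ 2 ^ h * ξ := by
      have : 0 ≤ ξ := le_trans (by positivity) hξ
      positivity
    linarith

end

end Pool.Agent.KS6_6.SA
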