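import Mathlib

set_option autoImplicit false

/-!
The basic semidefinite relaxation together with the Sherali–Adams hierarchy.
-/

namespace Pool.Agent.KS6_6.SA

open Finset

/-- Solutions of level `R` of the mixed hierarchy (basic semidefinite relaxation plus level `R` of the
Sherali–Adams hierarchy) for labelings of the vertices `W` with labels from `A`. The number
`μ (u, a) (v, b)` stands for the probability that `u` has the label `a` and `v` the label `b`. The
matrix `μ` is positive semidefinite, and there are probability distributions `P S` on the labelings,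
one for each set `S` of at most `R` vertices, such that for all `u` and `v` in `S` the pair of their
labels is distributed according to `μ`, and such that for `S' ⊆ S` the labels of the vertices in `S'`
have the same joint distribution under `P S` and under `P S'`. -/
structure SaSdp {W A : Type} [Fintype W] [DecidableEq W] [Fintype A] [DecidableEq A] (R : ℕ)
    (μ : W × A → W × A → ℝ) : Prop where
  psd : ∀ f : W × A → ℝ, 0 ≤ ∑ x, ∑ y, f x * f y * μ x y
  loc : ∃ P : Finset W → (W → A) → ℝ, ∀ S : Finset W, S.card ≤ R →
    (∀ l, 0 ≤ P S l) ∧ ∑ l, P S l = 1 ∧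
    (∀ u ∈ S, ∀ v ∈ S, ∀ a b,
      μ (u, a) (v, b) = ∑ l, if l u = a ∧ l v = b then P S l else 0) ∧
    ∀ S' ⊆ S, ∀ z : W → A, (∑ l, if ∀ u ∈ S', l u = z u then P S l else 0) =
      ∑ l, if ∀ u ∈ S', l u = z u then P S' l else 0

end Pool.Agent.KS6_6.SA
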