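import Pool.Agent.KS6_6.SA.Main2

set_option autoImplicit false

/-!
Games with any large number of vertices and exactly consistent local distributions.
-/

namespace Pool.Agent.KS6_6.SA

open Finset Pool.Agent.KS6_6.UG Pool.Agent.KS6_6.SC

theorem nu_nonneg {W : Type} [DecidableEq W] {l : ℕ} (x y : W × (Fin l → Bool)) :
    0 ≤ nu x y := by
  unfold nu
  split_ifs <;> positivity

/-- The error of the approximate consistency beats the number of labelings. -/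
theorem beat (l R R1 h : ℕ) (c₁ ε : ℝ) (hε0 : 0 < ε) (hR1 : 1 ≤ R1)
    (hR : (l * R + 3 : ℝ) ≤ 2 * (c₁ * h))
    (hRR : ∀ R : ℕ, (R : ℝ) ≤ ((2 : ℝ) ^ h) ^ c₁ → R ≤ R1) :
    ((2 : ℝ) ^ l) ^ R * (2 * (((ε / 2) / 4) / (R1 : ℝ) ^ 2)) ≤ ε := by
  set Z : ℝ := ((2 : ℝ) ^ h) ^ c₁ with hZ
  have hZ0 : 0 < Z := by positivity
  have h1 : Z < R1 + 1 := by
    have h2 := hRR ⌊Z⌋₊ (Nat.floor_le hZ0.le)
    have h3 := Nat.lt_floor_add_one Z
    have h4 : ((⌊Z⌋₊ : ℕ) : ℝ) ≤ R1 := by exact_mod_cast h2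
    linarith
  have hR1r : (1 : ℝ) ≤ R1 := by exact_mod_cast hR1
  have h2 : Z / 2 ≤ R1 := by linarith
  have h3 : Z = 2 ^ (h * c₁) := by
    rw [hZ, ← Real.rpow_natCast, ← Real.rpow_mul (by norm_num)]
  have h4 : ((2 : ℝ) ^ l) ^ R * 8 ≤ Z ^ 2 := by
    have e1 : ((2 : ℝ) ^ l) ^ R * 8 = (2 : ℝ) ^ ((l * R + 3 : ℝ)) := by
      rw [Real.rpow_add (by norm_num)]
      have : (2 : ℝ) ^ ((l : ℝ) * R) = ((2 : ℝ) ^ l) ^ R := by
        rw [← pow_mul, ← Real.rpow_natCast]; push_cast; rfl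
      rw [this]
      norm_num
    have e2 : Z ^ 2 = (2 : ℝ) ^ (2 * (c₁ * h)) := by
      rw [h3, ← Real.rpow_natCast, ← Real.rpow_mul (by norm_num)]
      congr 1
      push_cast; ring
    rw [e1, e2]
    exact Real.rpow_le_rpow_of_exponent_le (by norm_num) hR
  have h5 : Z ^ 2 ≤ 4 * (R1 : ℝ) ^ 2 := by
    have : Z ^ 2 ≤ (2 * R1) ^ 2 := pow_le_pow_left₀ hZ0.le (by linarith) 2
    calc Z ^ 2 ≤ (2 * R1) ^ 2 := this
      _ = _ := by ring
  have h6' : 0 ≤ ((2 : ℝ) ^ l) ^ R := by positivity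
  have h6 : ((2 : ℝ) ^ l) ^ R ≤ (R1 : ℝ) ^ 2 := by linarith
  have h7 : (0 : ℝ) < (R1 : ℝ) ^ 2 := by positivity
  have h8 : ((2 : ℝ) ^ l) ^ R * (2 * (((ε / 2) / 4) / (R1 : ℝ) ^ 2)) =
      (((2 : ℝ) ^ l) ^ R * (ε / 4)) / (R1 : ℝ) ^ 2 := by
    field_simp
  rw [h8, div_le_iff₀ h7]
  have h9 : ((2 : ℝ) ^ l) ^ R * (ε / 4) ≤ (R1 : ℝ) ^ 2 * (ε / 4) :=
    mul_le_mul_of_nonneg_right h6 (by positivity)
  have h10 : 0 ≤ (R1 : ℝ) ^ 2 * ε := by positivity
  linarith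

/-- The final theorem in terms of the internal definitions. -/
theorem final2 (ε δ : ℝ) (hε0 : 0 < ε) (hε1 : ε < 1) (hδ0 : 0 < δ) (hδ1 : δ < 1) :
    ∃ (l n₀ : ℕ), ∀ n : ℕ, n₀ ≤ n →
      ∃ (E : Type) (_ : Fintype E) (_ : Nonempty E) (s t : E → Fin n) (b : E → (Fin l → Bool))
        (part : Fin n → Bool) (μ : Fin n × (Fin l → Bool) → Fin n × (Fin l → Bool) → ℝ),
        (∀ e, part (s e) = false ∧ part (t e) = true) ∧
        (∀ L : Fin n → (Fin l → Bool),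
          ((Finset.univ.filter fun e => L (t e) = L (s e) + b e).card : ℝ) ≤
            δ * Fintype.card E) ∧
        (∀ R : ℕ, (R : ℝ) ≤
          Real.exp (Real.log n ^ (1 / (20 * Real.log (16 * Real.log (2 / δ) / ε)))) →
          LocalSdp R μ) ∧
        (∀ R : ℕ, (R : ℝ) ≤
          Real.log n ^ (1 / (20 * Real.log (16 * Real.log (2 / δ) / ε))) → SaSdp R μ) ∧
        (1 - ε) * Fintype.card E ≤ ∑ e, ∑ i, μ (s e, i) (t e, i + b e) := by
  classical
  obtain ⟨ε', hε'⟩ : ∃ ε', ε' = ε / 2 := ⟨_, rfl⟩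
  have hε'0 : 0 < ε' := by rw [hε']; linarith
  have hε'1 : ε' < 1 := by rw [hε']; linarith
  have e16 : 16 * Real.log (2 / δ) / ε = 8 * Real.log (2 / δ) / ε' := by
    rw [hε']; field_simp; ring
  rw [e16]
  obtain ⟨l, D, δ₀, hD, hd0, hd1, hmain⟩ := composed2 ε' δ hε'0 hε'1 hδ0 hδ1
  set c₁ : ℝ := (ε' / 2) / (2 ^ 20 * Real.log (2 / δ₀)) with hc₁
  have hlog : 0 < Real.log (2 / δ₀) := Real.log_pos (by rw [lt_div_iff₀ hd0]; linarith)
  have hc₁0 : 0 < c₁ := by positivity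
  set K : ℝ := (2 : ℝ) ^ (2 ^ 20 * Real.log (2 / δ₀) / (ε' / 2)) with hK
  have hK0 : 0 < K := by positivity
  set H₀ : ℝ := 2 ^ 20 * (Real.log (2 / δ₀) * Real.log (2 / (ε' / 2))) / (ε' / 2) with hH₀
  have hH₀0 : 0 ≤ H₀ := by
    have : 0 ≤ Real.log (2 / (ε' / 2)) := Real.log_nonneg (by
      rw [le_div_iff₀ (by linarith)]; linarith)
    positivity
  have hlog2 : 0 < Real.log 2 := Real.log_pos (by norm_num)
  set S : ℝ := H₀ + 1 / c₁ + 2 / (c₁ * Real.log 2) ^ 2 + (2 + K + l * 2 ^ D) +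
    ((l + 3) / c₁) ^ 2 with hS
  have hS1 : H₀ ≤ S := by
    have : 0 ≤ 1 / c₁ + 2 / (c₁ * Real.log 2) ^ 2 + (2 + K + l * 2 ^ D) +
      ((l + 3) / c₁) ^ 2 := by positivity
    rw [hS]; linarith
  have hS2 : 1 / c₁ ≤ S := by
    have : 0 ≤ H₀ + 2 / (c₁ * Real.log 2) ^ 2 + (2 + K + l * 2 ^ D) +
      ((l + 3) / c₁) ^ 2 := by positivity
    rw [hS]; linarith
  have hS3 : 2 / (c₁ * Real.log 2) ^ 2 ≤ S := by
    have : 0 ≤ H₀ + 1 / c₁ + (2 + K + l * 2 ^ D) + ((l + 3) / c₁) ^ 2 := by positivity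
    rw [hS]; linarith
  have hS4 : 2 + K + l * 2 ^ D ≤ S := by
    have : 0 ≤ H₀ + 1 / c₁ + 2 / (c₁ * Real.log 2) ^ 2 + ((l + 3) / c₁) ^ 2 := by positivity
    rw [hS]; linarith
  have hS5 : 1 ≤ S := by
    have : 0 ≤ (l : ℝ) * 2 ^ D := by positivity
    linarith
  have hS6 : ((l + 3) / c₁) ^ 2 ≤ S := by
    have : 0 ≤ H₀ + 1 / c₁ + 2 / (c₁ * Real.log 2) ^ 2 + (2 + K + l * 2 ^ D) := by positivity
    rw [hS]; linarith
  refine ⟨l, ⌈Real.exp ((S + 1) ^ (D + 2))⌉₊, ?_⟩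
  intro n hn
  have hn1 : Real.exp ((S + 1) ^ (D + 2)) ≤ n :=
    (Nat.le_ceil _).trans (by exact_mod_cast hn)
  have hn0 : (0 : ℝ) < n := lt_of_lt_of_le (Real.exp_pos _) hn1
  set x : ℝ := Real.log n with hx
  have hx1 : (S + 1) ^ (D + 2) ≤ x := by
    rw [hx, Real.le_log_iff_exp_le hn0]; exact hn1
  have hx0 : 0 ≤ x := le_trans (by positivity) hx1
  set y : ℝ := x ^ ((1 : ℝ) / (D + 2)) with hy
  have hy0 : 0 ≤ y := Real.rpow_nonneg hx0 _
  have hyx : y ^ (D + 2) = x := by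
    rw [hy, ← Real.rpow_natCast, ← Real.rpow_mul hx0]
    push_cast
    rw [one_div_mul_cancel (by positivity), Real.rpow_one]
  have hyS : S + 1 ≤ y := by
    apply le_of_pow_le_pow_left₀ (n := D + 2) (by omega) hy0
    rw [hyx]; exact hx1
  set h : ℕ := ⌊y⌋₊ with hh
  have hhy : (h : ℝ) ≤ y := Nat.floor_le hy0
  have hyh : y < h + 1 := Nat.lt_floor_add_one y
  have hhS : S ≤ h := by linarith
  have hh1 : (1 : ℝ) ≤ h := hS5.trans hhS
  set k : ℕ := ⌈(h : ℝ) * K⌉₊ with hk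
  have hk1 : (h : ℝ) * K ≤ k := Nat.le_ceil _
  have hk2 : (k : ℝ) ≤ h * K + 1 := (Nat.ceil_lt_add_one (by positivity)).le
  have hR2 : 2 ≤ ((2 : ℝ) ^ h) ^ c₁ := by
    rw [← Real.rpow_natCast, ← Real.rpow_mul (by norm_num)]
    have h1 : 1 ≤ (h : ℝ) * c₁ := by
      have := hS2.trans hhS
      rwa [div_le_iff₀ hc₁0] at this
    calc (2 : ℝ) = 2 ^ (1 : ℝ) := (Real.rpow_one 2).symm
      _ ≤ 2 ^ ((h : ℝ) * c₁) := Real.rpow_le_rpow_of_exponent_le (by norm_num) h1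
  obtain ⟨W, iW1, iW2, iW3, E, iE1, iE2, s, t, b, part, μ, mp, m0, m1, ⟨R1, r1, r2, r3, r4⟩,
    m3⟩ := hmain h k (hS1.trans hhS) hk1 hR2
  -- the number of vertices
  have hcard : Fintype.card W ≤ n := by
    refine m0.trans ?_
    have e1 : (((2 : ℕ) ^ (1 + k) * (2 ^ l) ^ ((h + 1) ^ D) : ℕ) : ℝ) ≤ n := by
      have e2 : (((2 : ℕ) ^ (1 + k) * (2 ^ l) ^ ((h + 1) ^ D) : ℕ) : ℝ) =
          Real.exp (((1 + k + l * (h + 1) ^ D : ℕ) : ℝ) * Real.log 2) := by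
        rw [Real.exp_nat_mul, Real.exp_log (by norm_num)]
        push_cast
        rw [← pow_mul, ← pow_add]
      rw [e2, ← Real.exp_log hn0, Real.exp_le_exp, ← hx]
      have e3 : ((1 + k + l * (h + 1) ^ D : ℕ) : ℝ) ≤ (h : ℝ) ^ (D + 2) := by
        push_cast
        exact size_arith h k K l D hh1 hk2 hK0 (by positivity) (hS4.trans hhS)
      have e4 : (h : ℝ) ^ (D + 2) ≤ x := by
        rw [← hyx]
        exact pow_le_pow_left₀ (by positivity) hhy _
      have e5 : Real.log 2 ≤ 1 := by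
        have := Real.log_two_lt_d9
        linarith
      have e6 : (0 : ℝ) ≤ ((1 + k + l * (h + 1) ^ D : ℕ) : ℝ) := Nat.cast_nonneg _
      nlinarith
    exact_mod_cast e1
  obtain ⟨ι⟩ := Function.Embedding.nonempty_of_card_le
    (show Fintype.card W ≤ Fintype.card (Fin n) by rw [Fintype.card_fin]; exact hcard)
  let inv : Fin n → W := Function.invFun ι
  have hinv : ∀ w, inv (ι w) = w := Function.leftInverse_invFun ι.injective
  -- the exponent
  have e2 : x ^ ((1 : ℝ) / (2 * (D + 2))) = Real.sqrt y := by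
    rw [Real.sqrt_eq_rpow, hy, ← Real.rpow_mul hx0]
    congr 1
    field_simp
  have e5 : x ^ (1 / (20 * Real.log (8 * Real.log (2 / δ) / ε'))) ≤
      x ^ ((1 : ℝ) / (2 * (D + 2))) := by
    apply Real.rpow_le_rpow_of_exponent_le
    · refine le_trans ?_ hx1
      exact one_le_pow₀ (by linarith)
    · exact one_div_le_one_div_of_le (by positivity) hD
  rw [e2] at e5
  have e4 : y ≤ 2 * h := by linarith
  have hpull : pull inv (fun _ (a : Fin l → Bool) => a) μ =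
      fun u v => μ (inv u.1, u.2) (inv v.1, v.2) := by
    funext u v
    exact pull_id inv μ u v
  have hloc := pull_sdp R1 inv (fun _ (a : Fin l → Bool) => a) μ r3
  have hapx := pull_apx R1 _ inv (fun _ (a : Fin l → Bool) => a) μ r4
  rw [hpull] at hloc hapx
  have hR12 : 2 ≤ R1 := r2 2 (by exact_mod_cast hR2)
  have hμ0 : ∀ x y, 0 ≤ μ x y := sdp_nonneg μ ⟨r3.psd, fun S hS => r3.loc S (hS.trans hR12)⟩
  refine ⟨E, iE1, iE2, fun e => ι (s e), fun e => ι (t e), b, fun u => part (inv u),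
    smo ε' (fun u v => μ (inv u.1, u.2) (inv v.1, v.2)), ?_, ?_, ?_, ?_, ?_⟩
  · intro e
    show part (inv (ι (s e))) = false ∧ part (inv (ι (t e))) = true
    rw [hinv, hinv]
    exact mp e
  · intro L
    exact m1 (fun w => L (ι w))
  · intro R hR
    have h1 : (R : ℝ) ≤ ((2 : ℝ) ^ h) ^ c₁ := by
      refine hR.trans ?_
      have e1 : ((2 : ℝ) ^ h) ^ c₁ = Real.exp (h * c₁ * Real.log 2) := by
        rw [← Real.rpow_natCast, ← Real.rpow_mul (by norm_num),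
          Real.rpow_def_of_pos (by norm_num)]
        congr 1; ring
      rw [e1, Real.exp_le_exp]
      refine e5.trans ?_
      apply Real.sqrt_le_iff.mpr
      refine ⟨by positivity, ?_⟩
      have e3 : 2 / (c₁ * Real.log 2) ^ 2 ≤ (h : ℝ) := hS3.trans hhS
      rw [div_le_iff₀ (by positivity)] at e3
      calc y ≤ 2 * h := e4
        _ ≤ (h * (c₁ * Real.log 2) ^ 2) * h := mul_le_mul_of_nonneg_right e3 (by positivity)
        _ = (h * c₁ * Real.log 2) ^ 2 := by ring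
    have h2 : LocalSdp R (fun u v => μ (inv u.1, u.2) (inv v.1, v.2) :
        Fin n × (Fin l → Bool) → Fin n × (Fin l → Bool) → ℝ) :=
      ⟨hloc.psd, fun S hS => hloc.loc S (hS.trans (r2 R h1))⟩
    exact smo_local R ε' hε'0.le hε'1.le _ h2
  · intro R hR
    have h0 : (R : ℝ) ≤ Real.sqrt y := hR.trans e5
    have hRlin : (l * R + 3 : ℝ) ≤ 2 * (c₁ * h) := by
      have f1 : ((l + 3) / c₁) ^ 2 ≤ (h : ℝ) := hS6.trans hhS
      have f2 : 1 ≤ Real.sqrt y := by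
        rw [Real.one_le_sqrt]; linarith
      have f3 : (l * R + 3 : ℝ) ≤ (l + 3) * Real.sqrt y := by
        have : (l : ℝ) * R ≤ l * Real.sqrt y := mul_le_mul_of_nonneg_left h0 (by positivity)
        linarith
      refine f3.trans ?_
      rw [← Real.sqrt_sq (show (0 : ℝ) ≤ l + 3 by positivity),
        ← Real.sqrt_mul (sq_nonneg _)]
      apply Real.sqrt_le_iff.mpr
      refine ⟨by positivity, ?_⟩
      have f4 : ((l : ℝ) + 3) ^ 2 ≤ h * c₁ ^ 2 := by
        rw [div_pow, div_le_iff₀ (by positivity)] at f1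
        exact f1
      calc ((l : ℝ) + 3) ^ 2 * y ≤ (h * c₁ ^ 2) * (2 * h) := by
            apply mul_le_mul f4 e4 hy0 (by positivity)
        _ ≤ (2 * (c₁ * h)) ^ 2 := by nlinarith [sq_nonneg (c₁ * h)]
    have hRR1 : R ≤ R1 := by
      have f1 : (R : ℝ) ≤ ((2 : ℝ) ^ h) ^ c₁ := by
        refine h0.trans ?_
        have e1 : ((2 : ℝ) ^ h) ^ c₁ = Real.exp (h * c₁ * Real.log 2) := by
          rw [← Real.rpow_natCast, ← Real.rpow_mul (by norm_num),
            Real.rpow_def_of_pos (by norm_num)]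
          congr 1; ring
        rw [e1]
        have e6 : Real.sqrt y ≤ h * c₁ * Real.log 2 := by
          apply Real.sqrt_le_iff.mpr
          refine ⟨by positivity, ?_⟩
          have e3 : 2 / (c₁ * Real.log 2) ^ 2 ≤ (h : ℝ) := hS3.trans hhS
          rw [div_le_iff₀ (by positivity)] at e3
          calc y ≤ 2 * h := e4
            _ ≤ (h * (c₁ * Real.log 2) ^ 2) * h := mul_le_mul_of_nonneg_right e3 (by positivity)
            _ = (h * c₁ * Real.log 2) ^ 2 := by ring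
        have := Real.add_one_le_exp (h * c₁ * Real.log 2)
        linarith
      exact r2 R f1
    have hb := beat l R R1 h c₁ ε' hε'0 r1 hRlin r2
    exact smo_sa R _ ε' hε'0.le hε'1.le _ hloc.psd (apx_mono R R1 hRR1 _ _ hapx) hb
  · have h1 : (1 - ε') * ∑ e, ∑ i, μ (s e, i) (t e, i + b e) ≤
        ∑ e, ∑ i, smo ε' (fun u v => μ (inv u.1, u.2) (inv v.1, v.2)) (ι (s e), i)
          (ι (t e), i + b e) := by
      rw [Finset.mul_sum]
      refine Finset.sum_le_sum fun e _ => ?_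
      rw [Finset.mul_sum]
      refine Finset.sum_le_sum fun i _ => ?_
      unfold smo
      show (1 - ε') * μ (s e, i) (t e, i + b e) ≤
        (1 - ε') * μ (inv (ι (s e)), i) (inv (ι (t e)), i + b e) + ε' * nu _ _
      rw [hinv, hinv]
      have := mul_nonneg hε'0.le (nu_nonneg (W := Fin n) (ι (s e), i) (ι (t e), i + b e))
      linarith
    refine le_trans ?_ h1
    have h2 : 0 ≤ 1 - ε' := by linarith
    refine le_trans ?_ (mul_le_mul_of_nonneg_left m3 h2)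
    have h3 : 1 - ε ≤ (1 - ε') * (1 - ε') := by rw [hε']; nlinarith
    calc (1 - ε) * (Fintype.card E : ℝ) ≤ ((1 - ε') * (1 - ε')) * Fintype.card E :=
          mul_le_mul_of_nonneg_right h3 (by positivity)
      _ = _ := by ring

end Pool.Agent.KS6_6.SA
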