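import Pool.Agent.KS6_6.SA.Apx
import Pool.Agent.KS6_6.UG.Relax

set_option autoImplicit false

/-!
Marginals of the cluster distributions depend only on the relation restricted to the set.
-/

namespace Pool.Agent.KS6_6.SA

open Finset Pool.Agent.KS6_6.UG Pool.Agent.KS6_6.SC

section

variable {V A : Type} [Fintype V] [DecidableEq V] [Fintype A] [DecidableEq A] [AddCommGroup A]

omit [Fintype V] [DecidableEq V] in
theorem rep_inj (r : Setoid V) (u v : V) (h : rep r u = rep r v) : r u v := by
  by_contra hcon
  exact rep_ne r u v hcon h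

theorem law_avg (r : Setoid V) (D : V → V → A) (F : (V → A) → ℝ) :
    ∑ x, law r D x * F x = (∑ Y : V → A, F (spread r D Y)) /
      (Fintype.card A : ℝ) ^ Fintype.card V := by
  unfold law
  simp only [div_mul_eq_mul_div]
  rw [← Finset.sum_div]
  congr 1
  simp only [Finset.sum_mul]
  rw [Finset.sum_comm]
  refine Finset.sum_congr rfl fun Y _ => ?_
  rw [Finset.sum_eq_single (spread r D Y)]
  · rw [if_pos rfl, one_mul]
  · intro y _ hy
    rw [if_neg (Ne.symm hy), zero_mul]
  · intro h; exact absurd (Finset.mem_univ _) h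

omit [DecidableEq A] in
theorem translate (r : Setoid V) (S : Finset V) (F : (V → A) → ℝ) (hF : DepOn S F)
    (e x : V → A) (he : ∀ u ∈ S, ∀ v ∈ S, r u v → e u = e v) :
    ∑ Y : V → A, F (fun u => Y (rep r u) + x u) =
      ∑ Y : V → A, F (fun u => Y (rep r u) + (e u + x u)) := by
  classical
  let e' : V → A := fun w => if hw : ∃ u ∈ S, rep r u = w then e hw.choose else 0
  have he' : ∀ u ∈ S, e' (rep r u) = e u := by
    intro u hu
    have hw : ∃ v ∈ S, rep r v = rep r u := ⟨u, hu, rfl⟩
    have h1 : e' (rep r u) = e hw.choose := dif_pos hw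
    rw [h1]
    have hs := hw.choose_spec
    exact he _ hs.1 u hu (rep_inj r _ _ hs.2)
  rw [← Equiv.sum_comp (Equiv.addRight e') (fun Y => F (fun u => Y (rep r u) + x u))]
  refine Finset.sum_congr rfl fun Y _ => ?_
  apply hF
  intro u hu
  show Y (rep r u) + e' (rep r u) + x u = Y (rep r u) + (e u + x u)
  rw [he' u hu, add_assoc]

/-- The marginal on `S` depends only on the restriction of the relation. -/
theorem law_restrict (r r' : Setoid V) (D : V → V → A)
    (hD : ∀ u v w, r u v → r v w → D u v + D v w = D u w)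
    (hD' : ∀ u v w, r' u v → r' v w → D u v + D v w = D u w) (S : Finset V)
    (hrr : ∀ u ∈ S, ∀ v ∈ S, (r u v ↔ r' u v)) (F : (V → A) → ℝ) (hF : DepOn S F) :
    ∑ x, law r D x * F x = ∑ x, law r' D x * F x := by
  rw [law_avg, law_avg]
  congr 1
  have hcard : (0 : ℝ) < Fintype.card (V → A) := by
    have : Nonempty (V → A) := ⟨fun _ => 0⟩
    exact_mod_cast Fintype.card_pos
  have h1 : ∀ Z : V → A, ∑ Y : V → A, F (spread r D Y) =
      ∑ Y : V → A, F (fun u => Y (rep r u) + (Z (rep r' u) + D u (rep r' u))) := by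
    intro Z
    have e1 := translate r S F hF (fun u => Z (rep r' u)) (fun u => D u (rep r u)) (by
      intro u hu v hv huv
      show Z (rep r' u) = Z (rep r' v)
      rw [rep_eq r' u v ((hrr u hu v hv).mp huv)])
    have e2 := translate r S F hF (fun u => D u (rep r' u) - D u (rep r u))
      (fun u => Z (rep r' u) + D u (rep r u)) (by
      intro u hu v hv huv
      have huv' := (hrr u hu v hv).mp huv
      show D u (rep r' u) - D u (rep r u) = D v (rep r' v) - D v (rep r v)
      rw [rep_eq r u v huv, rep_eq r' u v huv',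
        ← hD u v (rep r v) huv (r.symm (rep_rel r v)),
        ← hD' u v (rep r' v) huv' (r'.symm (rep_rel r' v))]
      abel)
    have e3 : ∑ Y : V → A, F (spread r D Y) =
        ∑ Y : V → A, F (fun u => Y (rep r u) + D u (rep r u)) := rfl
    rw [e3, e1, e2]
    refine Finset.sum_congr rfl fun Y _ => ?_
    congr 1
    funext u
    abel
  have h2 : ∀ Y : V → A, ∑ Z : V → A, F (spread r' D Z) =
      ∑ Z : V → A, F (fun u => Y (rep r u) + (Z (rep r' u) + D u (rep r' u))) := by
    intro Y
    have e1 := translate r' S F hF (fun u => Y (rep r u)) (fun u => D u (rep r' u)) (by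
      intro u hu v hv huv
      show Y (rep r u) = Y (rep r v)
      rw [rep_eq r u v ((hrr u hu v hv).mpr huv)])
    have e3 : ∑ Z : V → A, F (spread r' D Z) =
        ∑ Z : V → A, F (fun u => Z (rep r' u) + D u (rep r' u)) := rfl
    rw [e3, e1]
    refine Finset.sum_congr rfl fun Z _ => ?_
    congr 1
    funext u
    abel
  have h3 : (Fintype.card (V → A) : ℝ) * ∑ Y : V → A, F (spread r D Y) =
      (Fintype.card (V → A) : ℝ) * ∑ Y : V → A, F (spread r' D Y) := by
    calc (Fintype.card (V → A) : ℝ) * ∑ Y : V → A, F (spread r D Y)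
        = ∑ _Z : V → A, ∑ Y : V → A, F (spread r D Y) := by
          rw [Finset.sum_const, Finset.card_univ, nsmul_eq_mul]
      _ = ∑ Z : V → A, ∑ Y : V → A,
            F (fun u => Y (rep r u) + (Z (rep r' u) + D u (rep r' u))) :=
          Finset.sum_congr rfl fun Z _ => h1 Z
      _ = ∑ Y : V → A, ∑ Z : V → A,
            F (fun u => Y (rep r u) + (Z (rep r' u) + D u (rep r' u))) := Finset.sum_comm
      _ = ∑ _Y : V → A, ∑ Z : V → A, F (spread r' D Z) :=
          Finset.sum_congr rfl fun Y _ => (h2 Y).symm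
      _ = _ := by rw [Finset.sum_const, Finset.card_univ, nsmul_eq_mul]
  exact mul_left_cancel₀ hcard.ne' h3

open Classical in
/-- Mixtures of the laws, explicit form. -/
theorem mix_props {Ω : Type} [Fintype Ω] (w : Ω → ℝ) (hw0 : ∀ T, 0 ≤ w T)
    (hw1 : ∑ T, w T = 1) (r : Ω → Setoid V) (D : V → V → A)
    (hD : ∀ T u v w, r T u v → r T v w → D u v + D v w = D u w) :
    (∀ x, 0 ≤ ∑ T, w T * law (r T) D x) ∧ ∑ x, ∑ T, w T * law (r T) D x = 1 ∧
      (∀ u a, ∑ x, (if x u = a then ∑ T, w T * law (r T) D x else 0) = 1 / Fintype.card A) ∧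
      ∀ u v a b, marg (fun x => ∑ T, w T * law (r T) D x) u v a b =
        (∑ T, w T * if r T u v then 1 else 0) *
          (if a = b + D u v then 1 / (Fintype.card A : ℝ) else 0) +
        (1 - ∑ T, w T * if r T u v then 1 else 0) / (Fintype.card A : ℝ) ^ 2 := by
  have hmix : ∀ F : (V → A) → Prop, ∀ _ : DecidablePred F,
      ∑ x, (if F x then ∑ T, w T * law (r T) D x else 0) =
        ∑ T, w T * ∑ x, (if F x then law (r T) D x else 0) := by
    intro F _
    have h1 : ∀ x, (if F x then ∑ T, w T * law (r T) D x else 0) =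
        ∑ T, w T * (if F x then law (r T) D x else 0) := by
      intro x
      by_cases h : F x <;> simp [h]
    simp only [h1]
    rw [Finset.sum_comm]
    exact Finset.sum_congr rfl fun T _ => by rw [Finset.mul_sum]
  refine ⟨?_, ?_, ?_, ?_⟩
  · intro x
    exact Finset.sum_nonneg fun T _ => mul_nonneg (hw0 T) (law_nonneg _ _ _)
  · rw [Finset.sum_comm]
    simp only [← Finset.mul_sum, law_sum, mul_one, hw1]
  · intro u a
    rw [hmix (fun x => x u = a) inferInstance]
    simp only [law_one]
    rw [← Finset.sum_mul, hw1, one_mul]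
  · intro u v a b
    unfold marg
    rw [hmix (fun x => x u = a ∧ x v = b) inferInstance]
    have h2 : ∀ T, ∑ x : V → A, (if x u = a ∧ x v = b then law (r T) D x else 0) =
        if r T u v then (if a = b + D u v then 1 / (Fintype.card A : ℝ) else 0)
        else 1 / (Fintype.card A : ℝ) ^ 2 := fun T => law_two (r T) D (hD T) u v a b
    simp only [h2]
    generalize (if a = b + D u v then 1 / (Fintype.card A : ℝ) else 0) = X
    generalize (Fintype.card A : ℝ) ^ 2 = Z
    have h3 : ∀ T, w T * (if r T u v then X else 1 / Z) =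
        (w T * if r T u v then 1 else 0) * X + (w T - w T * if r T u v then 1 else 0) * (1 / Z) := by
      intro T
      by_cases h : r T u v
      · simp only [if_pos h]; ring
      · simp only [if_neg h]; ring
    simp only [h3]
    rw [Finset.sum_add_distrib, ← Finset.sum_mul, ← Finset.sum_mul, Finset.sum_sub_distrib, hw1]
    ring

end

end Pool.Agent.KS6_6.SA
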