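import Pool.Agent.KS6_6.SA.Param2
import Pool.Agent.KS6_6.SC.Main

set_option autoImplicit false

/-!
The composed game, with approximately consistent local distributions.
-/

namespace Pool.Agent.KS6_6.SA

open Finset Pool.Agent.KS6_6.UG Pool.Agent.KS6_6.SC

/-- The composed game for given parameters of the base game. -/
theorem composed2 (ε δ : ℝ) (hε0 : 0 < ε) (hε1 : ε < 1) (hδ0 : 0 < δ) (hδ1 : δ < 1) :
    ∃ (l D : ℕ) (δ₀ : ℝ), (2 * (D + 2) : ℝ) ≤ 20 * Real.log (8 * Real.log (2 / δ) / ε) ∧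
      0 < δ₀ ∧ δ₀ < 1 ∧ ∀ h k : ℕ,
      2 ^ 20 * (Real.log (2 / δ₀) * Real.log (2 / (ε / 2))) / (ε / 2) ≤ h →
      h * (2 : ℝ) ^ (2 ^ 20 * Real.log (2 / δ₀) / (ε / 2)) ≤ k →
      2 ≤ ((2 : ℝ) ^ h) ^ ((ε / 2) / (2 ^ 20 * Real.log (2 / δ₀))) →
      ∃ (W : Type) (_ : Fintype W) (_ : DecidableEq W) (_ : Nonempty W) (E : Type)
        (_ : Fintype E) (_ : Nonempty E) (s t : E → W) (b : E → (Fin l → Bool))
        (part : W → Bool) (μ : W × (Fin l → Bool) → W × (Fin l → Bool) → ℝ),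
        (∀ e, part (s e) = false ∧ part (t e) = true) ∧
        Fintype.card W ≤ 2 ^ (1 + k) * (2 ^ l) ^ ((h + 1) ^ D) ∧
        (∀ L : W → (Fin l → Bool),
          ((Finset.univ.filter fun e => L (t e) = L (s e) + b e).card : ℝ) ≤
            δ * Fintype.card E) ∧
        (∃ R1 : ℕ, 1 ≤ R1 ∧
          (∀ R : ℕ, (R : ℝ) ≤ ((2 : ℝ) ^ h) ^ ((ε / 2) / (2 ^ 20 * Real.log (2 / δ₀))) →
            R ≤ R1) ∧
          LocalSdp R1 μ ∧ ApxSa R1 (2 * (((ε / 2) / 4) / (R1 : ℝ) ^ 2)) μ) ∧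
        (1 - ε) * Fintype.card E ≤ ∑ e, ∑ i, μ (s e, i) (t e, i + b e) := by
  classical
  obtain ⟨n, t, l, κ, τ, δ₀, c0, c1, c2, c3, c4, c5, c6, c7, c8, c9⟩ :=
    consts (ε / 2) δ (by linarith) (by linarith) hδ0 hδ1
  refine ⟨l, n + 2 + n, δ₀, exponent ε δ hε0 hε1 hδ0 hδ1 n c0, c3, c4, ?_⟩
  intro h k hh hk hR2
  obtain ⟨φ, T, μ₀, m1, ⟨R1, r1, r2, r3, r4⟩, m3⟩ := main2 (ε / 2) δ₀ h k (by linarith) (by linarith) c3 c4 hh hk
  have hh0 : 0 < h := by
    rcases Nat.eq_zero_or_pos h with h0 | h0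
    · exfalso
      subst h0
      have hl1 : 0 < Real.log (2 / δ₀) := Real.log_pos (by rw [lt_div_iff₀ c3]; linarith)
      have hl2 : 0 < Real.log (2 / (ε / 2)) := by
        apply Real.log_pos
        rw [lt_div_iff₀ (by linarith)]; linarith
      have : 0 < 2 ^ 20 * (Real.log (2 / δ₀) * Real.log (2 / (ε / 2))) / (ε / 2) := by positivity
      rw [Nat.cast_zero] at hh
      linarith
    · exact h0
  -- the parts of the composed game
  let U := Fin k → Bool
  let R₀ := Fin T → (Fin h ⊕ Fin k) × Bool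
  let R := Fin t → Stp h l n (n + 2)
  let P := PP h l (n + 2 + n)
  have hU : Nonempty U := ⟨fun _ => false⟩
  have hR₀ : Nonempty R₀ := ⟨fun _ => (Sum.inl ⟨0, hh0⟩, false)⟩
  have hR : Nonempty R := ⟨fun _ => (fun _ => 0, 0)⟩
  have hP : Nonempty P := ⟨0⟩
  let tb : U → R₀ → U := fun u r₀ => tgt φ (u, r₀)
  let cb : U → R₀ → (Fin h → Bool) := fun _ r₀ => nuA r₀
  let η : R → P := eta
  let W := (U ⊕ U) × P
  let E := U × R₀ × R × P × (Fin l → Bool)
  let sE : E → W := fun e => (Sum.inl e.1, e.2.2.2.1)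
  let tE : E → W := fun e =>
    (Sum.inr (tb e.1 e.2.1), tr (cb e.1 e.2.1) (e.2.2.2.1 + η e.2.2.1 + cst e.2.2.2.2))
  let bE : E → (Fin l → Bool) := fun e => e.2.2.2.2
  let p : W → U ⊕ U := fun w => w.1
  let q : W → (Fin h → Bool) → (Fin l → Bool) := fun w => w.2.1
  have hcardE : (Fintype.card E : ℝ) = 2 ^ l * Fintype.card R₀ * Fintype.card R *
      (Fintype.card U * Fintype.card P) := by
    have h1 : Fintype.card E = Fintype.card U * (Fintype.card R₀ * (Fintype.card R *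
        (Fintype.card P * Fintype.card (Fin l → Bool)))) := by
      show Fintype.card (U × R₀ × R × P × (Fin l → Bool)) = _
      rw [Fintype.card_prod, Fintype.card_prod, Fintype.card_prod, Fintype.card_prod]
    rw [h1, Nat.cast_mul, Nat.cast_mul, Nat.cast_mul, Nat.cast_mul, card_lab (l := l)]
    generalize (Fintype.card U : ℝ) = a1
    generalize (Fintype.card R₀ : ℝ) = a2
    generalize (Fintype.card R : ℝ) = a3
    generalize (Fintype.card P : ℝ) = a4
    ring
  have hcardEdg : (Fintype.card (Edg h k T) : ℝ) = Fintype.card U * Fintype.card R₀ := by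
    simp only [Edg, Fintype.card_prod, U, R₀]
    push_cast; rfl
  refine ⟨W, inferInstance, inferInstance, ⟨(Sum.inl (fun _ => false), 0)⟩, E, inferInstance,
    inferInstance, sE, tE, bE, fun w => w.1.isRight, pull p q μ₀, fun e => ⟨rfl, rfl⟩, ?_, ?_, ?_,
    ?_⟩
  · -- size
    simp only [W, Fintype.card_prod, Fintype.card_sum]
    have e1 : Fintype.card P ≤ (2 ^ l) ^ ((h + 1) ^ (n + 2 + n)) := by
      rw [← Nat.card_eq_fintype_card]
      exact card_PP _
    have e2 : Fintype.card U = 2 ^ k := by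
      simp [U]
    rw [e2]
    calc (2 ^ k + 2 ^ k) * Fintype.card P ≤ (2 ^ k + 2 ^ k) * (2 ^ l) ^ ((h + 1) ^ (n + 2 + n)) :=
          Nat.mul_le_mul_left _ e1
      _ = _ := by rw [show 2 ^ k + 2 ^ k = 2 ^ (1 + k) by rw [pow_add 2 1 k]; ring]
  · -- soundness
    intro L
    have hbase : ∀ (a : U → Fin h → Bool) (b : U → Fin h → Bool),
        ∑ u, ∑ r₀, (if a u + cb u r₀ = b (tb u r₀) then (1 : ℝ) else 0) ≤
          δ₀ * (Fintype.card U * Fintype.card R₀) := by
      intro a b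
      have h1 := m1 a b
      rw [hcardEdg] at h1
      refine le_trans (le_of_eq ?_) h1
      rw [← Finset.sum_boole, Fintype.sum_prod_type]
      rfl
    have hs := soundness tb cb η (lseq n) c6 τ c2 δ₀ hbase κ ((1 - (3 / 4) ^ n) ^ t) c5
      (pow_nonneg (by
        have : (3 / 4 : ℝ) ^ n ≤ 1 := pow_le_one₀ (by norm_num) (by norm_num)
        linarith) t)
      (fun ψ hψ => eig_le (by omega) ψ hψ) c7 c8
      (fun u γ => L (Sum.inl u, γ)) (fun v γ => L (Sum.inr v, γ))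
    have h2 : ((Finset.univ.filter fun e : E => L (tE e) = L (sE e) + bE e).card : ℝ) =
        sat tb cb η (fun u γ => L (Sum.inl u, γ)) (fun v γ => L (Sum.inr v, γ)) := by
      rw [← Finset.sum_boole]
      unfold sat
      simp only [E, Fintype.sum_prod_type]
      rfl
    rw [h2, hcardE]
    have h3 : sat tb cb η (fun u γ => L (Sum.inl u, γ)) (fun v γ => L (Sum.inr v, γ)) ^ 2 ≤
        (δ * (2 ^ l * Fintype.card R₀ * Fintype.card R *
          (Fintype.card U * Fintype.card P))) ^ 2 := by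
      refine hs.trans ?_
      rw [mul_pow δ]
      exact mul_le_mul_of_nonneg_right c9 (sq_nonneg _)
    exact (le_abs_self _).trans (abs_le_of_sq_le_sq h3 (by positivity))
  · -- local distributions
    exact ⟨R1, r1, r2, pull_sdp R1 p q μ₀ r3, pull_apx R1 _ p q μ₀ r4⟩
  · -- objective
    have hR12 : 2 ≤ R1 := r2 2 (by exact_mod_cast hR2)
    have hμ : ∀ x y, 0 ≤ μ₀ x y := sdp_nonneg μ₀ ⟨r3.psd, fun S hS => r3.loc S (hS.trans hR12)⟩
    have h1 : ∀ (u : U) (r₀ : R₀), (1 - ε / 2) * (2 ^ l * Fintype.card R * Fintype.card P) *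
        ∑ a, μ₀ (Sum.inl u, a) (Sum.inr (tb u r₀), a + cb u r₀) ≤
        ∑ r, ∑ γ, ∑ b, ∑ i, pull p q μ₀ ((Sum.inl u, γ), i)
          ((Sum.inr (tb u r₀), tr (cb u r₀) (γ + η r + cst b)), i + b) := by
      intro u r₀
      apply obj_edge p q μ₀ hμ η (ε / 2) _ (fun γ => (Sum.inl u, γ))
        (fun γ => (Sum.inr (tb u r₀), γ)) (Sum.inl u) (Sum.inr (tb u r₀)) (fun _ => rfl)
        (fun _ => rfl) (fun _ => rfl) (fun _ => rfl) (cb u r₀)
      intro x
      refine le_trans ?_ (eta_zero (h := h) (l := l) (n := n) (d := n + 2) (t := t) x)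
      apply mul_le_mul_of_nonneg_right _ (by positivity)
      linarith
    have h2 : ∑ e : E, ∑ i, pull p q μ₀ (sE e, i) (tE e, i + bE e) =
        ∑ u, ∑ r₀, ∑ r, ∑ γ, ∑ b, ∑ i, pull p q μ₀ ((Sum.inl u, γ), i)
          ((Sum.inr (tb u r₀), tr (cb u r₀) (γ + η r + cst b)), i + b) := by
      simp only [E, Fintype.sum_prod_type]
      rfl
    rw [h2]
    refine le_trans ?_ (Finset.sum_le_sum fun u _ => Finset.sum_le_sum fun r₀ _ => h1 u r₀)
    have h3 : ∑ u, ∑ r₀, (1 - ε / 2) * (2 ^ l * Fintype.card R * Fintype.card P) *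
        ∑ a, μ₀ (Sum.inl u, a) (Sum.inr (tb u r₀), a + cb u r₀) =
        (1 - ε / 2) * (2 ^ l * Fintype.card R * Fintype.card P) *
        ∑ e : Edg h k T, ∑ b, μ₀ (Sum.inl e.1, b) (Sum.inr (tgt φ e), prm e b) := by
      simp only [← Finset.mul_sum]
      congr 1
      rw [Fintype.sum_prod_type]
      rfl
    rw [h3]
    have hX : (0 : ℝ) ≤ (1 - ε / 2) * (2 ^ l * Fintype.card R * Fintype.card P) := by
      apply mul_nonneg (by linarith) (by positivity)
    refine le_trans ?_ (mul_le_mul_of_nonneg_left m3 hX)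
    rw [hcardE, hcardEdg]
    have h4 : (1 - ε) ≤ (1 - ε / 2) * (1 - ε / 2) := by nlinarith
    calc (1 - ε) * (2 ^ l * Fintype.card R₀ * Fintype.card R * (Fintype.card U * Fintype.card P))
        ≤ ((1 - ε / 2) * (1 - ε / 2)) *
          (2 ^ l * Fintype.card R₀ * Fintype.card R * (Fintype.card U * Fintype.card P)) :=
          mul_le_mul_of_nonneg_right h4 (by positivity)
      _ = _ := by ring

end Pool.Agent.KS6_6.SA
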