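import Pool.Agent.KS6_6.SA.Apx
import Pool.Agent.KS6_6.SC.Four

set_option autoImplicit false

/-!
Smoothing: exactly consistent families from approximately consistent ones, for small alphabets.
-/

namespace Pool.Agent.KS6_6.SA

open Finset Pool.Agent.KS6_6.UG Pool.Agent.KS6_6.SC

variable {W : Type} [Fintype W] [DecidableEq W] {l : ℕ}

/-- Number of labelings. -/
noncomputable def NN (W : Type) [Fintype W] (l : ℕ) : ℝ := ((2 : ℝ) ^ l) ^ Fintype.card W

omit [DecidableEq W] in
theorem NN_pos : 0 < NN W l := by unfold NN; positivity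

theorem chi_symm (s p : Fin l → Bool) : chi s p = chi p s := by
  unfold chi; rw [dotProduct_comm]

omit [DecidableEq W] in
theorem chp_symm (α y : W → Fin l → Bool) : chp α y = chp y α := by
  unfold chp
  exact Finset.prod_congr rfl fun w _ => chi_symm _ _

omit [DecidableEq W] in
theorem chp_zero (y : W → Fin l → Bool) : chp 0 y = 1 := by
  unfold chp
  apply Finset.prod_eq_one
  intro w _
  exact chi_zero _

omit [DecidableEq W] in
theorem chp_abs (α y : W → Fin l → Bool) : |chp α y| ≤ 1 := by
  unfold chp
  rw [Finset.abs_prod]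
  apply Finset.prod_le_one
  · intro w _; positivity
  · intro w _
    exact abs_le.mpr (chi_le _ _)

/-- Sum of characters with supports in `S`. -/
theorem sum_chp_on (S : Finset W) (x y : W → Fin l → Bool) :
    ∑ α : W → Fin l → Bool, (if spt α ⊆ S then chp α x * chp α y else 0) =
      ∏ w, (if w ∈ S then (if x w = y w then (2 : ℝ) ^ l else 0) else 1) := by
  have h1 : ∀ α : W → Fin l → Bool, (if spt α ⊆ S then chp α x * chp α y else 0) =
      ∏ w, (if w ∈ S then chi (α w) (x w) * chi (α w) (y w) else if α w = 0 then 1 else 0) := by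
    intro α
    by_cases hα : spt α ⊆ S
    · rw [if_pos hα]
      unfold chp
      rw [← Finset.prod_mul_distrib]
      refine Finset.prod_congr rfl fun w _ => ?_
      by_cases hw : w ∈ S
      · rw [if_pos hw]
      · have h2 : α w = 0 := by
          by_contra hne
          exact hw (hα ((mem_spt α w).mpr hne))
        rw [if_neg hw, if_pos h2, h2, chi_zero, chi_zero, one_mul]
    · rw [if_neg hα]
      obtain ⟨w, hw1, hw2⟩ := Finset.not_subset.mp hα
      symm
      apply Finset.prod_eq_zero (Finset.mem_univ w)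
      rw [if_neg hw2, if_neg ((mem_spt α w).mp hw1)]
  simp only [h1]
  rw [sum_prod_fun (fun w s => if w ∈ S then chi s (x w) * chi s (y w) else
    if s = 0 then 1 else 0)]
  refine Finset.prod_congr rfl fun w _ => ?_
  by_cases hw : w ∈ S
  · simp only [if_pos hw]
    have h2 : ∀ s : Fin l → Bool, chi s (x w) * chi s (y w) = chi (x w) s * chi (y w) s := by
      intro s; rw [chi_symm s (x w), chi_symm s (y w)]
    simp only [h2]
    rw [sum_chi_mul]
  · simp only [if_neg hw]
    simp

theorem sum_chp_all (x y : W → Fin l → Bool) :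
    ∑ α : W → Fin l → Bool, chp α x * chp α y = if x = y then NN W l else 0 := by
  have h1 := sum_chp_on (Finset.univ : Finset W) x y
  simp only [Finset.subset_univ, if_true, Finset.mem_univ] at h1
  rw [h1]
  by_cases h : x = y
  · subst h
    simp [NN]
  · rw [if_neg h]
    obtain ⟨w, hw⟩ : ∃ w, x w ≠ y w := by
      by_contra hcon
      push Not at hcon
      exact h (funext hcon)
    apply Finset.prod_eq_zero (Finset.mem_univ w)
    rw [if_neg hw]

/-- Fourier coefficient of a function. -/
noncomputable def fh (F : (W → Fin l → Bool) → ℝ) (α : W → Fin l → Bool) : ℝ :=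
  (∑ y, F y * chp α y) / NN W l

/-- Fourier coefficient of a distribution. -/
noncomputable def ph (P : (W → Fin l → Bool) → ℝ) (α : W → Fin l → Bool) : ℝ :=
  ∑ x, P x * chp α x

theorem fh_inv (F : (W → Fin l → Bool) → ℝ) (x : W → Fin l → Bool) :
    F x = ∑ α, fh F α * chp α x := by
  have hN := NN_pos (W := W) (l := l)
  have h1 : ∑ α, fh F α * chp α x = (∑ y, F y * ∑ α, chp α y * chp α x) / NN W l := by
    unfold fh
    simp only [div_mul_eq_mul_div, ← Finset.sum_div, Finset.sum_mul, Finset.mul_sum]
    congr 1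
    rw [Finset.sum_comm]
    refine Finset.sum_congr rfl fun y _ => Finset.sum_congr rfl fun α _ => by ring
  rw [h1]
  simp only [sum_chp_all, mul_ite, mul_zero]
  rw [Finset.sum_ite_eq' Finset.univ x, if_pos (Finset.mem_univ x)]
  field_simp

/-- Functions of few variables have few Fourier coefficients. -/
theorem fh_dep (S : Finset W) (F : (W → Fin l → Bool) → ℝ) (hF : DepOn S F)
    (α : W → Fin l → Bool) (hα : ¬ spt α ⊆ S) : fh F α = 0 := by
  obtain ⟨w, hw1, hw2⟩ := Finset.not_subset.mp hα
  have hα0 := (mem_spt α w).mp hw1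
  -- an element on which the character is nontrivial
  obtain ⟨s, hs⟩ : ∃ s : Fin l → Bool, chi (α w) s = -1 := by
    by_contra hcon
    push Not at hcon
    have h1 : ∀ s : Fin l → Bool, chi (α w) s = 1 := by
      intro s
      have h2 := chi_mul_self (α w) s
      rcases mul_self_eq_one_iff.mp h2 with h3 | h3
      · exact h3
      · exact absurd h3 (hcon s)
    have h2 := sum_chi (α w)
    rw [if_neg hα0] at h2
    simp only [h1] at h2
    simp at h2
  unfold fh
  obtain ⟨e, he⟩ : ∃ e : W → Fin l → Bool, e = Pi.single w s := ⟨_, rfl⟩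
  have he1 : e w = s := by rw [he, Pi.single_eq_same]
  have he2 : ∀ u, u ≠ w → e u = 0 := fun u hu => by rw [he, Pi.single_eq_of_ne hu]
  have h1 : ∑ y, F (y + e) * chp α (y + e) = ∑ y, F y * chp α y :=
    Equiv.sum_comp (Equiv.addRight e) (fun y => F y * chp α y)
  have h2 : ∀ y, F (y + e) * chp α (y + e) = -(F y * chp α y) := by
    intro y
    have e1 : F (y + e) = F y := by
      apply hF
      intro u hu
      have : u ≠ w := fun h => hw2 (h ▸ hu)
      rw [Pi.add_apply, he2 u this, add_zero]
    have e2 : chp α (y + e) = -chp α y := by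
      unfold chp
      rw [← Finset.mul_prod_erase _ _ (Finset.mem_univ w),
        ← Finset.mul_prod_erase _ _ (Finset.mem_univ w)]
      have e3 : ∏ x ∈ Finset.univ.erase w, chi (α x) ((y + e) x) =
          ∏ x ∈ Finset.univ.erase w, chi (α x) (y x) := by
        refine Finset.prod_congr rfl fun x hx => ?_
        rw [Pi.add_apply, he2 x (Finset.ne_of_mem_erase hx), add_zero]
      rw [e3, Pi.add_apply, he1, chi_add_right, hs]
      ring
    rw [e1, e2]; ring
  simp only [h2] at h1
  rw [Finset.sum_neg_distrib] at h1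
  have h3 : ∑ y, F y * chp α y = 0 := by linarith
  rw [h3, zero_div]

/-- Function with given Fourier coefficients on `S`. -/
noncomputable def qq (c : (W → Fin l → Bool) → ℝ) (S : Finset W) (y : W → Fin l → Bool) : ℝ :=
  (∑ α, if spt α ⊆ S then c α * chp α y else 0) / NN W l

theorem qq_sum (c : (W → Fin l → Bool) → ℝ) (S : Finset W) (F : (W → Fin l → Bool) → ℝ) :
    ∑ y, qq c S y * F y = ∑ α, if spt α ⊆ S then c α * fh F α else 0 := by
  unfold qq fh
  simp only [div_mul_eq_mul_div, ← Finset.sum_div, Finset.sum_mul, mul_div_assoc',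
    ← Finset.sum_div, Finset.mul_sum]
  rw [Finset.sum_comm]
  have h1 : ∀ α : W → Fin l → Bool, ∑ y, (if spt α ⊆ S then c α * chp α y else 0) * F y =
      (if spt α ⊆ S then ∑ y, c α * (F y * chp α y) else 0) := by
    intro α
    by_cases h : spt α ⊆ S
    · simp only [if_pos h]
      exact Finset.sum_congr rfl fun y _ => by ring
    · simp [h]
  simp only [h1]
  rw [Finset.sum_div]
  refine Finset.sum_congr rfl fun α _ => ?_
  by_cases h : spt α ⊆ S
  · simp only [if_pos h]
  · simp only [if_neg h, zero_div]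

/-- Consistency. -/
theorem qq_consistent (c : (W → Fin l → Bool) → ℝ) (S S' : Finset W) (hS : S' ⊆ S)
    (F : (W → Fin l → Bool) → ℝ) (hF : DepOn S' F) :
    ∑ y, qq c S y * F y = ∑ y, qq c S' y * F y := by
  rw [qq_sum, qq_sum]
  refine Finset.sum_congr rfl fun α _ => ?_
  by_cases h1 : spt α ⊆ S'
  · rw [if_pos h1, if_pos (h1.trans hS)]
  · rw [if_neg h1, fh_dep S' F hF α h1]
    simp

/-- Fourier coefficients of a distribution give its averages. -/
theorem ph_sum (P : (W → Fin l → Bool) → ℝ) (S : Finset W) (F : (W → Fin l → Bool) → ℝ)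
    (hF : DepOn S F) :
    ∑ x, P x * F x = ∑ α, if spt α ⊆ S then ph P α * fh F α else 0 := by
  have h1 : ∀ x, P x * F x = ∑ α, P x * (fh F α * chp α x) := by
    intro x
    conv_lhs => rw [fh_inv F x]
    rw [Finset.mul_sum]
  simp only [h1]
  rw [Finset.sum_comm]
  refine Finset.sum_congr rfl fun α _ => ?_
  by_cases h2 : spt α ⊆ S
  · rw [if_pos h2]
    unfold ph
    rw [Finset.sum_mul]
    exact Finset.sum_congr rfl fun x _ => by ring
  · rw [if_neg h2, fh_dep S F hF α h2]
    simp

/-- Number of characters with support in `S`. -/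
theorem card_on (S : Finset W) : ∑ α : W → Fin l → Bool, (if spt α ⊆ S then (1 : ℝ) else 0) =
    ((2 : ℝ) ^ l) ^ S.card := by
  have h1 := sum_chp_on S (0 : W → Fin l → Bool) 0
  have h2 : ∀ α : W → Fin l → Bool, (if spt α ⊆ S then chp α 0 * chp α 0 else 0) =
      if spt α ⊆ S then (1 : ℝ) else 0 := by
    intro α
    rw [chp_symm α 0, chp_zero, one_mul]
  simp only [h2] at h1
  rw [h1]
  simp only [if_true]
  rw [Finset.prod_ite_mem, Finset.univ_inter, Finset.prod_const]

/-- Positivity of the projection of a distribution. -/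
theorem proj_nonneg (P : (W → Fin l → Bool) → ℝ) (hP : ∀ x, 0 ≤ P x) (S : Finset W)
    (y : W → Fin l → Bool) : 0 ≤ qq (ph P) S y := by
  unfold qq
  apply div_nonneg _ NN_pos.le
  have h1 : ∑ α, (if spt α ⊆ S then ph P α * chp α y else 0) =
      ∑ x, P x * ∑ α : W → Fin l → Bool, (if spt α ⊆ S then chp α x * chp α y else 0) := by
    simp only [Finset.mul_sum]
    rw [Finset.sum_comm]
    refine Finset.sum_congr rfl fun α _ => ?_
    by_cases h2 : spt α ⊆ S
    · simp only [if_pos h2]
      unfold ph
      rw [Finset.sum_mul]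
      exact Finset.sum_congr rfl fun x _ => by ring
    · simp [h2]
  rw [h1]
  apply Finset.sum_nonneg
  intro x _
  apply mul_nonneg (hP x)
  rw [sum_chp_on]
  apply Finset.prod_nonneg
  intro w _
  split_ifs <;> positivity

/-- Product marginals. -/
noncomputable def nu (x y : W × (Fin l → Bool)) : ℝ :=
  if x.1 = y.1 then (if x.2 = y.2 then 1 / 2 ^ l else 0) else 1 / (2 ^ l) ^ 2

/-- Smoothed matrix. -/
noncomputable def smo (lam : ℝ) (μ : W × (Fin l → Bool) → W × (Fin l → Bool) → ℝ)
    (x y : W × (Fin l → Bool)) : ℝ := (1 - lam) * μ x y + lam * nu x y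

end Pool.Agent.KS6_6.SA
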